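import Pool.Agent.Helper2.Arb.Final

/-!
# Coefficients
-/

set_option autoImplicit false

set_option maxHeartbeats 1000000

namespace Pool.Agent.Helper2.Arb

open Polynomial LaurentPolynomial

theorem coeff_toLaurent (P : ℚ[X]) (j : ℕ) : (toLaurent P).coeff (j : ℤ) = P.coeff j := by
  induction P using Polynomial.induction_on' with
  | add p q hp hq =>
    rw [map_add, Polynomial.coeff_add, ← hp, ← hq]
    rfl
  | monomial n a =>
    rw [toLaurent_C_mul_T, ← single_eq_C_mul_T, Polynomial.coeff_monomial]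
    rw [AddMonoidAlgebra.coeff_single, Finsupp.single_apply]
    simp

theorem T_mul_ev (m : ℤ) (f : ℚ[X]) :
    T m * ev f = ∑ k ∈ Finset.range (f.natDegree + 1), AddMonoidAlgebra.single (m - 2 * k) (f.coeff k) := by
  conv_lhs => rw [f.as_sum_range_C_mul_X_pow]
  rw [map_sum, Finset.mul_sum]
  refine Finset.sum_congr rfl fun k _ => ?_
  rw [map_mul, map_pow, ev_X, T_pow]
  have : ev (Polynomial.C (f.coeff k)) = LaurentPolynomial.C (f.coeff k) := by simp [ev]
  rw [this, single_eq_C_mul_T, mul_left_comm, ← T_add]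
  congr 2
  ring

theorem coeff_T_mul_ev (m j : ℤ) (f : ℚ[X]) (k : ℕ) (h : m - 2 * k = j) : (T m * ev f).coeff j = f.coeff k := by
  rw [T_mul_ev, AddMonoidAlgebra.coeff_sum, Finset.sum_apply']
  simp only [AddMonoidAlgebra.coeff_single, Finsupp.single_apply]
  by_cases hk : k < f.natDegree + 1
  · rw [Finset.sum_eq_single k]
    · rw [if_pos h]
    · intro b _ hb
      rw [if_neg (by omega)]
    · intro hcon
      exact absurd (Finset.mem_range.2 hk) hcon
  · rw [coeff_eq_zero_of_natDegree_lt (by omega)]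
    refine Finset.sum_eq_zero fun b hb => ?_
    have := Finset.mem_range.1 hb
    rw [if_neg (by omega)]

theorem coeff_T_mul_ev' (m j : ℤ) (f : ℚ[X]) (h : ∀ k : ℕ, m - 2 * k ≠ j) : (T m * ev f).coeff j = 0 := by
  rw [T_mul_ev, AddMonoidAlgebra.coeff_sum, Finset.sum_apply']
  simp only [AddMonoidAlgebra.coeff_single, Finsupp.single_apply]
  refine Finset.sum_eq_zero fun b _ => ?_
  rw [if_neg (h b)]

theorem coeff_nl {nab : Word → ℤ[X]} (w : Word) (j : ℕ) : (nl nab w).coeff (j : ℤ) = (((nab w).coeff j : ℤ) : ℚ) := by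
  rw [nl, coeff_toLaurent, Polynomial.coeff_map]
  simp

section

variable {P : ℤ[X]} {m : ℤ} {f : ℚ[X]} (h : toLaurent (P.map (Int.castRingHom ℚ)) = T m * ev f)

include h

theorem cf {j k : ℕ} (hk : m - 2 * k = j) : ((P.coeff j : ℤ) : ℚ) = f.coeff k := by
  have := coeff_T_mul_ev m j f k hk
  rw [← h, coeff_toLaurent, Polynomial.coeff_map] at this
  simpa using this

theorem cf0 {j : ℕ} (hk : ∀ k : ℕ, m - 2 * k ≠ j) : P.coeff j = 0 := by
  have := coeff_T_mul_ev' m j f hk
  rw [← h, coeff_toLaurent, Polynomial.coeff_map] at this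
  simpa using this

theorem c_nonneg (hf : Nn f) (j : ℕ) : 0 ≤ P.coeff j := by
  by_cases hk : ∃ k : ℕ, m - 2 * k = j
  · obtain ⟨k, hk⟩ := hk
    have := cf h hk
    have h2 := hf k
    rw [← this] at h2
    exact_mod_cast h2
  · push Not at hk
    rw [cf0 h hk]

theorem c_parity : ∃ n : ℕ, ∀ j : ℕ, P.coeff j ≠ 0 → j % 2 = n % 2 := by
  refine ⟨(m % 2).toNat, fun j hj => ?_⟩
  by_contra hcon
  apply hj
  apply cf0 h
  intro k hk
  omega

theorem c_lc (hf : Nn f) (lf : Lc f) (i j : ℕ) (hij : i ≤ j) :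
    P.coeff i * P.coeff (j + 2) ≤ P.coeff (i + 2) * P.coeff j := by
  have n0 : 0 ≤ P.coeff (i + 2) * P.coeff j := mul_nonneg (c_nonneg h hf _) (c_nonneg h hf _)
  by_cases hk : ∃ k : ℕ, m - 2 * k = i
  · by_cases hl : ∃ l : ℕ, m - 2 * l = ((j + 2 : ℕ) : ℤ)
    · obtain ⟨k, hk⟩ := hk
      obtain ⟨l, hl⟩ := hl
      have hkl : l + 1 ≤ k := by omega
      have e1 := cf h hk
      have e2 := cf h hl
      have e3 := cf h (j := i + 2) (k := k - 1) (by omega)
      have e4 := cf h (j := j) (k := l + 1) (by omega)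
      have key := lf.adj (p := l) (q := k - 1) (by omega)
      rw [show k - 1 + 1 = k by omega, ← e1, ← e2, ← e3, ← e4] at key
      have : P.coeff (j + 2) * P.coeff i ≤ P.coeff j * P.coeff (i + 2) := by exact_mod_cast key
      linarith
    · push Not at hl
      rw [cf0 h hl, mul_zero]
      exact n0
  · push Not at hk
    rw [cf0 h hk, zero_mul]
    exact n0

theorem c_ne (f0 : f ≠ 0) : P ≠ 0 := by
  rintro rfl
  rw [Polynomial.map_zero, map_zero] at h
  apply f0
  ext k
  have := coeff_T_mul_ev m (m - 2 * k) f k rfl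
  rw [← h] at this
  rw [← this]
  rfl

end

/-- The coefficient of `t ^ k` in `t ^ ((1 - n) / 2) ∇(√t)`. -/
def coeffX (P : ℤ[X]) (n : ℕ) (k : ℤ) : ℤ := if 0 ≤ 2 * k + n - 1 then P.coeff (2 * k + n - 1).toNat else 0

theorem coeffX_lc {P : ℤ[X]}
    (h : ∀ i j : ℕ, i ≤ j → P.coeff i * P.coeff (j + 2) ≤ P.coeff (i + 2) * P.coeff j) (n : ℕ) (k : ℤ) :
    coeffX P n (k + 1) * coeffX P n (k - 1) ≤ coeffX P n k ^ 2 := by
  unfold coeffX
  by_cases hk : 0 ≤ 2 * (k - 1) + n - 1
  · have e1 : (2 * (k + 1) + n - 1).toNat = (2 * (k - 1) + n - 1).toNat + 2 + 2 := by omega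
    have e2 : (2 * k + n - 1).toNat = (2 * (k - 1) + n - 1).toNat + 2 := by omega
    rw [if_pos hk, if_pos (by omega), if_pos (by omega), e1, e2]
    have := h (2 * (k - 1) + n - 1).toNat ((2 * (k - 1) + n - 1).toNat + 2) (by omega)
    nlinarith
  · rw [if_neg hk, mul_zero]
    positivity

/-- Q1 for positive algebraic links. -/
theorem final {a c : Bool} (K : PT a (!a) c (!c)) (nab : Word → ℤ[X]) (hn : IsConway nab) :
    (K.NoVert → nab K.closure ≠ 0) ∧ (∀ j, 0 ≤ (nab K.closure).coeff j) ∧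
      (∃ n : ℕ, ∀ j : ℕ, (nab K.closure).coeff j ≠ 0 → j % 2 = n % 2) ∧
      (∀ i j : ℕ, i ≤ j → (nab K.closure).coeff i * (nab K.closure).coeff (j + 2) ≤
        (nab K.closure).coeff (i + 2) * (nab K.closure).coeff j) ∧
      (∀ (n : ℕ) (k : ℤ), coeffX (nab K.closure) n (k + 1) * coeffX (nab K.closure) n (k - 1) ≤ coeffX (nab K.closure) n k ^ 2) ∧
      ∀ nab' : Word → ℤ[X], IsConway nab' → nab' K.closure = nab K.closure := by
  obtain ⟨m, f, hf, lf, hv⟩ := value K
  have h := hv nab hn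
  refine ⟨fun hK => ?_, c_nonneg h hf, c_parity h, c_lc h hf lf, coeffX_lc (c_lc h hf lf), fun nab' hn' => ?_⟩
  · obtain ⟨m', f', f0, hv'⟩ := value_ne K hK
    exact c_ne (hv' nab hn) f0
  ext j
  have h' := hv nab' hn'
  have : (nl nab' K.closure).coeff (j : ℤ) = (nl nab K.closure).coeff (j : ℤ) := by rw [h, h']
  rw [coeff_nl, coeff_nl] at this
  exact_mod_cast this

end Pool.Agent.Helper2.Arb
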