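import Mathlib

/-!
# Oriented link diagrams in Morse form, the Conway polynomial, positive algebraic tangles

A diagram is read from top to bottom.  The state at a level is the list of the directions of the strands (`true` = downwards), from left to right.
An event is a pair `(k, e)`: the position `k` and the kind `e` of the event:

* `birth d`: a maximum; it inserts two strands with directions `d`, `!d` at the positions `k`, `k + 1`;
* `death`: a minimum; it joins the strands `k`, `k + 1` (which have opposite directions);
* `cross x`: the strands `k`, `k + 1` cross; for `x = true` the strand from the upper left to the lower right is the upper one, for `x = false` the other one.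
-/

set_option autoImplicit false

namespace Pool.Agent.Helper2.Arb

open Polynomial

/-- Kinds of events. -/
inductive Kind : Type
  | birth (d : Bool)
  | death
  | cross (x : Bool)
  deriving DecidableEq

/-- Number of strands entering an event from above. -/
def Kind.inn : Kind → ℕ
  | .birth _ => 0
  | .death => 2
  | .cross _ => 2

/-- Number of strands leaving an event below. -/
def Kind.out : Kind → ℕ
  | .birth _ => 2
  | .death => 0
  | .cross _ => 2

/-- A word of events, from top to bottom. -/
abbrev Word : Type := List (ℕ × Kind)

/-- An event at position `0`. -/
def Kind.act : Kind → List Bool → Option (List Bool)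
  | .birth d, s => some (d :: (!d) :: s)
  | .death, a :: b :: s => if b = !a then some s else none
  | .death, _ => none
  | .cross _, a :: b :: s => some (b :: a :: s)
  | .cross _, _ => none

/-- An event at position `k`. -/
def act : ℕ → Kind → List Bool → Option (List Bool)
  | 0, e, s => e.act s
  | _ + 1, _, [] => none
  | k + 1, e, a :: s => (act k e s).map (a :: ·)

/-- The state below a word, if all its events are possible. -/
def run : List Bool → Word → Option (List Bool)
  | s, [] => some s
  | s, (k, e) :: w => (act k e s).bind fun t => run t w

/-- A closed diagram. -/
def Closed (w : Word) : Prop := run [] w = some []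

/-- The local moves: planar isotopies and Reidemeister moves. -/
inductive Move : Word → Word → Prop
  /-- distant events commute -/
  | far (k m : ℕ) (e f : Kind) : Move [(k, e), (k + e.out + m, f)] [(k + e.inn + m, f), (k, e)]
  /-- a strand is pulled straight -/
  | snakeL (k : ℕ) (d : Bool) : Move [(k, .birth d), (k + 1, .death)] []
  | snakeR (k : ℕ) (d : Bool) : Move [(k + 1, .birth d), (k, .death)] []
  /-- a strand slides over or under a maximum -/
  | forkB (k : ℕ) (d x : Bool) : Move [(k, .birth d), (k + 1, .cross x)] [(k + 1, .birth d), (k, .cross (!x))]
  /-- a strand slides over or under a minimum -/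
  | forkD (k : ℕ) (x : Bool) : Move [(k + 1, .cross x), (k, .death)] [(k, .cross (!x)), (k + 1, .death)]
  /-- first Reidemeister move, at a maximum -/
  | r1B (k : ℕ) (d x : Bool) : Move [(k, .birth d), (k, .cross x)] [(k, .birth (!d))]
  /-- first Reidemeister move, at a minimum -/
  | r1D (k : ℕ) (x : Bool) : Move [(k, .cross x), (k, .death)] [(k, .death)]
  /-- second Reidemeister move -/
  | r2 (k : ℕ) (x : Bool) : Move [(k, .cross x), (k, .cross (!x))] []
  /-- third Reidemeister move -/
  | r3 (k : ℕ) (x y z : Bool) (h : x = z → y = x) :
      Move [(k, .cross x), (k + 1, .cross y), (k, .cross z)] [(k + 1, .cross z), (k, .cross y), (k + 1, .cross x)]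

/-- The properties of the Conway polynomial, as a function of the diagram.  For two strands with the same direction the crossing `cross false` is positive and
the crossing `cross true` is negative. -/
structure IsConway (nab : Word → ℤ[X]) : Prop where
  circle : ∀ d, nab [(0, .birth d), (0, .death)] = 1
  move : ∀ u v l r, Move l r → Closed (u ++ l ++ v) → Closed (u ++ r ++ v) → nab (u ++ l ++ v) = nab (u ++ r ++ v)
  skein : ∀ u v s k d, run [] u = some s → s[k]? = some d → s[k + 1]? = some d → Closed (u ++ v) →
    nab (u ++ [(k, .cross false)] ++ v) - nab (u ++ [(k, .cross true)] ++ v) = X * nab (u ++ v)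

/-- Positive algebraic (arborescent) tangles with the directions of the ends north-west, north-east, south-west, south-east: a positive crossing,
two vertical strands, the horizontal sum, and the rotation by a quarter turn (counterclockwise). -/
inductive PT : Bool → Bool → Bool → Bool → Type
  | cross (a b : Bool) : PT a b b a
  | vert (a b : Bool) : PT a b a b
  | sum {a b c d e f : Bool} (T : PT a b c d) (S : PT (!b) e (!d) f) : PT a e c f
  | rot {a b c d : Bool} (T : PT a b c d) : PT b (!d) (!a) c

/-- The diagram of a tangle whose north-west end is the strand `k`. -/
def PT.word : {a b c d : Bool} → PT a b c d → ℕ → Word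
  | _, _, _, _, .cross a b, k => [(k, .cross (xor a b))]
  | _, _, _, _, .vert _ _, _ => []
  | _, _, _, _, .sum (b := b) T S, k => (k + 1, .birth b) :: (T.word k ++ S.word (k + 2) ++ [(k + 1, .death)])
  | _, _, _, _, .rot (a := a) T, k => (k, .birth (!a)) :: (T.word (k + 1) ++ [(k + 2, .death)])

/-- The closure of a tangle: the two upper ends and the two lower ends are joined. -/
def PT.closure {a c : Bool} (T : PT a (!a) c (!c)) : Word := (0, .birth a) :: (T.word 0 ++ [(0, .death)])

/-- The number of crossings of a tangle. -/
def PT.size : {a b c d : Bool} → PT a b c d → ℕ
  | _, _, _, _, .cross _ _ => 1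
  | _, _, _, _, .vert _ _ => 0
  | _, _, _, _, .sum T S => T.size + S.size
  | _, _, _, _, .rot T => T.size

/-- The tangle is built without the constructor `vert`. -/
def PT.NoVert : {a b c d : Bool} → PT a b c d → Prop
  | _, _, _, _, .cross _ _ => True
  | _, _, _, _, .vert _ _ => False
  | _, _, _, _, .sum T S => T.NoVert ∧ S.NoVert
  | _, _, _, _, .rot T => T.NoVert

example : Closed (PT.closure (PT.rot (PT.cross true true))) := by unfold Closed; decide

end Pool.Agent.Helper2.Arb
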