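import Pool.Agent.Helper2.Arb.Main

/-!
# Log-concavity for positive algebraic links
-/

set_option autoImplicit false

set_option maxHeartbeats 1000000

namespace Pool.Agent.Helper2.Arb

open Polynomial LaurentPolynomial

theorem word_sh : ∀ {a b c d : Bool} (T : PT a b c d) (n k : ℕ), T.word (n + k) = sh n (T.word k)
  | _, _, _, _, .cross a b, n, k => rfl
  | _, _, _, _, .vert a b, n, k => rfl
  | _, _, _, _, .sum T S, n, k => by
    simp only [PT.word, sh_cons, sh_append, sh_nil]
    rw [word_sh T n k, show n + k + 2 = n + (k + 2) by omega, word_sh S n (k + 2)]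
    rfl
  | _, _, _, _, .rot T, n, k => by
    simp only [PT.word, sh_cons, sh_append, sh_nil]
    rw [show n + k + 1 = n + (k + 1) by omega, word_sh T n (k + 1)]
    rfl

theorem word_sum {a b c d e f : Bool} (T : PT a b c d) (S : PT (!b) e (!d) f) :
    (PT.sum T S).word 0 = glue b (T.word 0) (S.word 0) := by
  have h := word_sh S 2 0
  rw [PT.word]
  show (1, Kind.birth b) :: (T.word 0 ++ S.word (2 + 0) ++ [(1, Kind.death)]) = _
  rw [h]

theorem word_rot {a b c d : Bool} (T : PT a b c d) : (PT.rot T).word 0 = turn a (T.word 0) := by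
  have h := word_sh T 1 0
  rw [PT.word]
  show (0, Kind.birth (!a)) :: (T.word (1 + 0) ++ [(2, Kind.death)]) = _
  rw [h]

theorem run_word : ∀ {a b c d : Bool} (T : PT a b c d), run [a, b] (T.word 0) = some [c, d]
  | _, _, _, _, .cross a b => rfl
  | _, _, _, _, .vert a b => rfl
  | _, _, _, _, .sum T S => by
    rw [word_sum]
    exact run_glue (run_word T) (run_word S)
  | _, _, _, _, .rot T => by
    rw [word_rot]
    exact run_turn (run_word T)

theorem closed_closure {a c : Bool} (T : PT a (!a) c (!c)) : Closed T.closure := by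
  have h1 : run [] [(0, Kind.birth a)] = some [a, !a] := rfl
  have h2 : run [c, !c] [(0, Kind.death)] = some [] := by cases c <;> rfl
  have h := run_append_of (run_append_of h1 (run_word T)) h2
  exact h

variable {P A : ℚ[X] → ℚ[X] → Prop}

/-- The invariant of the recursion. -/
def Inv (P A : ℚ[X] → ℚ[X] → Prop) (a b c d : Bool) (w : Word) : Prop :=
  (b = a ∧ c = a ∧ d = a ∧ PVert P a w) ∨ (b = !a ∧ c = !a ∧ d = a ∧ PHor P a w) ∨ (b = !a ∧ c = a ∧ d = !a ∧ PAlt A a w)

theorem inv_cross (S : Sys P A) (a b : Bool) : Inv P A a b b a [(0, .cross (xor a b))] := by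
  by_cases h : b = a
  · subst h
    refine Or.inl ⟨rfl, rfl, rfl, 1, 0, 1, S.base, ?_⟩
    intro nab hn L R u v hu hv
    have : xor b b = false := by cases b <;> rfl
    rw [this]
    simp
  · have hb : b = !a := by cases a <;> cases b <;> simp_all
    subst hb
    refine Or.inr (Or.inl ⟨rfl, rfl, rfl, 1, 0, 1, S.base, ?_⟩)
    intro nab hn L R u v hu hv
    have : xor a (!a) = true := by cases a <;> rfl
    rw [this]
    simp

theorem inv_vert (hP : P 1 0) (hA : A 1 0) (a b : Bool) : Inv P A a b a b [] := by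
  by_cases h : b = a
  · subst h
    refine Or.inl ⟨rfl, rfl, rfl, 0, 1, 0, hP, ?_⟩
    intro nab hn L R u v hu hv
    simp
  · have hb : b = !a := by cases a <;> cases b <;> simp_all
    subst hb
    refine Or.inr (Or.inr ⟨rfl, rfl, rfl, 0, 1, 0, hA, ?_⟩)
    intro nab hn L R u v hu hv
    simp

theorem inv_sum (S : Sys P A) {a b c d e f : Bool} {w w' : Word} (h : Inv P A a b c d w) (h' : Inv P A (!b) e (!d) f w')
    (r' : run [!b, e] w' = some [!d, f]) : Inv P A a e c f (glue b w w') := by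
  rcases h with ⟨rfl, rfl, rfl, h⟩ | ⟨rfl, rfl, rfl, h⟩ | ⟨rfl, rfl, rfl, h⟩
  · rcases h' with ⟨rfl, h2, rfl, h'⟩ | ⟨rfl, h2, rfl, h'⟩ | ⟨rfl, h2, rfl, h'⟩
    · exact Or.inr (Or.inr ⟨rfl, rfl, rfl, sumVV S h h' r'⟩)
    · exact absurd h2 (by simp)
    · refine Or.inl ⟨by simp, rfl, by simp, sumVA S h h' ?_⟩
      simpa using r'
  · rcases h' with ⟨rfl, h2, rfl, h'⟩ | ⟨rfl, h2, rfl, h'⟩ | ⟨rfl, h2, rfl, h'⟩
    · exact absurd h2 (by cases d <;> simp)
    · refine Or.inr (Or.inl ⟨by simp, rfl, by simp, sumHH S h ?_ ?_⟩)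
      · simpa using h'
      · simpa using r'
    · exact absurd h2 (by cases d <;> simp)
  · rcases h' with ⟨rfl, h2, rfl, h'⟩ | ⟨rfl, h2, rfl, h'⟩ | ⟨rfl, h2, rfl, h'⟩
    · refine Or.inl ⟨by simp, rfl, by simp, sumAV S h ?_ ?_⟩
      · simpa using h'
      · simpa using r'
    · exact absurd h2 (by cases c <;> simp)
    · refine Or.inr (Or.inr ⟨by simp, rfl, by simp, sumAA S h ?_ ?_⟩)
      · simpa using h'
      · simpa using r'

theorem inv_rot (S : Sys P A) {a b c d : Bool} {w : Word} (h : Inv P A a b c d w) : Inv P A b (!d) (!a) c (turn a w) := by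
  rcases h with ⟨rfl, rfl, rfl, h⟩ | ⟨rfl, rfl, rfl, h⟩ | ⟨rfl, rfl, rfl, h⟩
  · exact Or.inr (Or.inl ⟨rfl, rfl, rfl, rotV h⟩)
  · exact Or.inl ⟨rfl, rfl, rfl, rotH h⟩
  · exact Or.inr (Or.inr ⟨rfl, rfl, by simp, rotA S h⟩)

theorem inv_word (S : Sys P A) : ∀ {a b c d : Bool} (T : PT a b c d), (T.NoVert ∨ (P 1 0 ∧ A 1 0)) → Inv P A a b c d (T.word 0)
  | _, _, _, _, .cross a b, _ => inv_cross S a b
  | _, _, _, _, .vert a b, h => h.elim False.elim fun h => inv_vert h.1 h.2 a b
  | _, _, _, _, .sum T T', h => by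
    rw [word_sum]
    exact inv_sum S (inv_word S T (h.imp_left fun h => h.1)) (inv_word S T' (h.imp_left fun h => h.2)) (run_word T')
  | _, _, _, _, .rot T, h => by
    rw [word_rot]
    exact inv_rot S (inv_word S T h)

/-- Two circles next to each other. -/
theorem two_circles {nab : Word → ℤ[X]} (h : IsConway nab) (a : Bool) :
    nab [(0, .birth a), (0, .death), (0, .birth (!a)), (0, .death)] = 0 := by
  have s1 : Same nab [] [] [(0, .birth a), (0, .death), (0, .birth (!a)), (0, .death)]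
      [(0, .birth a), (2, .birth (!a)), (0, .death), (0, .death)] :=
    h.mv [(0, .birth a)] [(0, .death)] (Move.far 0 0 .death (.birth (!a))) rfl rfl (by cases a <;> rfl) (by cases a <;> rfl)
  have s2 : Same nab [] [] [(0, .birth a), (2, .birth (!a)), (0, .death), (0, .death)]
      [(0, .birth a), (2, .birth (!a)), (2, .death), (0, .death)] :=
    h.mv [(0, .birth a), (2, .birth (!a))] [] (Move.far 0 0 .death .death) rfl rfl (by cases a <;> rfl) (by cases a <;> rfl)
  have z : Zero nab [] [] [(0, .birth a), (2, .birth (!a)), (2, .death), (0, .death)] :=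
    Zero.mid (s := []) (t := []) ((loop h (!a) (!a)).frame [a] []) (a := [(0, .birth a)]) (b := [(0, .death)])
      (by cases a <;> rfl) (by cases a <;> rfl)
  exact Zero.of_same (s1.trans s2) z [] [] [] [] rfl rfl

theorem curl {nab : Word → ℤ[X]} (h : IsConway nab) (a x : Bool) :
    nab [(0, .birth a), (0, .cross x), (0, .death)] = 1 := by
  have s1 : Same nab [] [] [(0, .birth a), (0, .cross x), (0, .death)] [(0, .birth a), (0, .death)] :=
    h.mv [(0, .birth a)] [] (Move.r1D 0 x) rfl rfl (by cases a <;> rfl) (by cases a <;> rfl)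
  rw [show nab [(0, .birth a), (0, .cross x), (0, .death)] = nab [(0, .birth a), (0, .death)] from s1 [] [] [] [] rfl rfl]
  exact h.circle a

/-- The value of a closed positive algebraic tangle. -/
theorem value_of (S : Sys P A) {a c : Bool} (K : PT a (!a) c (!c)) (hK : K.NoVert ∨ (P 1 0 ∧ A 1 0)) :
    ∃ (m : ℤ) (f f' : ℚ[X]), (P f' f ∨ A f f') ∧ ∀ nab : Word → ℤ[X], IsConway nab → nl nab K.closure = T m * ev f := by
  have hc : ∀ nab : Word → ℤ[X], nl nab K.closure = nl nab ([(0, Kind.birth a)] ++ sh 0 (K.word 0) ++ [(0, Kind.death)]) := by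
    intro nab
    rw [sh_zero]
    rfl
  have hu : run [] [(0, Kind.birth a)] = some [a, !a] := rfl
  have hv : run [c, !c] [(0, Kind.death)] = some [] := by cases c <;> rfl
  rcases inv_word S K hK with ⟨h1, h2, h3, h⟩ | ⟨h1, h2, h3, m, p, q, hp, h⟩ | ⟨h1, h2, h3, m, g, e, hp, h⟩
  · exact absurd h1 (by cases a <;> simp)
  · refine ⟨m - 1, q, p, Or.inl hp, fun nab hn => ?_⟩
    subst h2
    have key := h nab hn [] [] [(0, Kind.birth a)] [(0, Kind.death)] hu (by cases a <;> rfl)
    have e1 : nl nab ([(0, Kind.birth a)] ++ sh ([] : List Bool).length (U (!a)) ++ [(0, Kind.death)]) = 0 :=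
      nl_zero (two_circles hn a)
    have e2 : nl nab ([(0, Kind.birth a)] ++ sh ([] : List Bool).length [(0, Kind.cross true)] ++ [(0, Kind.death)]) = 1 := by
      rw [nl, show nab ([(0, Kind.birth a)] ++ sh ([] : List Bool).length [(0, Kind.cross true)] ++ [(0, Kind.death)]) = 1
        from curl hn a true, Polynomial.map_one, map_one]
    rw [e1, e2] at key
    rw [hc nab]
    simpa using key
  · refine ⟨m, g, e, Or.inr hp, fun nab hn => ?_⟩
    subst h2
    have key := h nab hn [] [] [(0, Kind.birth c)] [(0, Kind.death)] hu hv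
    have e1 : nl nab ([(0, Kind.birth c)] ++ sh ([] : List Bool).length [] ++ [(0, Kind.death)]) = 1 := by
      rw [nl, show nab ([(0, Kind.birth c)] ++ sh ([] : List Bool).length [] ++ [(0, Kind.death)]) = 1
        from hn.circle c, Polynomial.map_one, map_one]
    have e2 : nl nab ([(0, Kind.birth c)] ++ sh ([] : List Bool).length (U c) ++ [(0, Kind.death)]) = 0 := by
      refine nl_zero ?_
      have s : Same nab [c, !c] [] [(0, .death), (0, .birth c), (0, .death)] [(0, .death), (0, .birth (!c)), (0, .death)] :=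
        Same.mid (s := [c, !c]) (t := []) (loopflip hn c) (a := [(0, .death)]) (b := []) (by cases c <;> rfl) rfl
      exact (s [] [] [(0, .birth c)] [] rfl rfl).trans (two_circles hn c)
    rw [e1, e2] at key
    rw [hc nab]
    simpa using key

theorem value {a c : Bool} (K : PT a (!a) c (!c)) : ∃ (m : ℤ) (f : ℚ[X]), Nn f ∧ Lc f ∧
    ∀ nab : Word → ℤ[X], IsConway nab → nl nab K.closure = T m * ev f := by
  obtain ⟨m, f, f', h, hv⟩ := value_of weak K (Or.inr ⟨Or.inr ⟨Q.one, rfl⟩, Or.inr (Or.inl ⟨Q.one, rfl⟩)⟩)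
  rcases h with h | h
  · exact ⟨m, f, (weak.lb h).1, (weak.lb h).2, hv⟩
  · exact ⟨m, f, (weak.lg h).1, (weak.lg h).2, hv⟩

theorem value_ne {a c : Bool} (K : PT a (!a) c (!c)) (hK : K.NoVert) : ∃ (m : ℤ) (f : ℚ[X]), f ≠ 0 ∧
    ∀ nab : Word → ℤ[X], IsConway nab → nl nab K.closure = T m * ev f := by
  obtain ⟨m, f, f', h, hv⟩ := value_of strong K (Or.inl hK)
  rcases h with h | h
  · exact ⟨m, f, h.b0, hv⟩
  · exact ⟨m, f, h.g0, hv⟩

end Pool.Agent.Helper2.Arb
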