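import Pool.Agent.Helper2.Arb.Local

/-!
# Local identities for the sum and the rotation of tangles
-/

set_option autoImplicit false

namespace Pool.Agent.Helper2.Arb

open Polynomial

variable {nab : Word → ℤ[X]}

/-- The turned-back tangle. -/
abbrev U (e : Bool) : Word := [(0, .death), (0, .birth e)]

/-- The sum of two tangles, as a word. -/
abbrev glue (b : Bool) (w w' : Word) : Word := (1, .birth b) :: (w ++ sh 2 w' ++ [(1, .death)])

/-- The rotated tangle, as a word. -/
abbrev turn (a : Bool) (w : Word) : Word := (0, .birth (!a)) :: (sh 1 w ++ [(2, .death)])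

theorem loopflip (h : IsConway nab) (e : Bool) : Same nab [] [] [(0, .birth e), (0, .death)] [(0, .birth (!e)), (0, .death)] :=
  (h.mv (w := [(0, .birth (!e)), (0, .cross true), (0, .death)]) [] [(0, .death)] (Move.r1B 0 (!e) true) rfl (by cases e <;> rfl)
    (by cases e <;> rfl) (by cases e <;> rfl)).symm.trans
  (h.mv [(0, .birth (!e))] [] (Move.r1D 0 true) rfl rfl (by cases e <;> rfl) (by cases e <;> rfl))

theorem kinkL (h : IsConway nab) (d x : Bool) : Same nab [d] [d] [(1, .birth d), (0, .cross x), (1, .death)] [] :=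
  (h.mv (w := [(0, .birth d), (1, .cross (!x)), (1, .death)]) [] [(1, .death)] (Move.forkB 0 d (!x)) rfl
    (by cases x <;> rfl) (by cases d <;> rfl) (by cases d <;> rfl)).symm.trans
  ((h.mv (w' := [(0, .birth d), (1, .death)]) [(0, .birth d)] [] (Move.r1D 1 (!x)) rfl rfl (by cases d <;> rfl)
    (by cases d <;> rfl)).trans
  (h.mv [] [] (Move.snakeL 0 d) rfl rfl (by cases d <;> rfl) (by cases d <;> rfl)))

theorem kinkR (h : IsConway nab) (d x : Bool) : Same nab [!d] [!d] [(0, .birth d), (1, .cross x), (0, .death)] [] :=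
  (h.mv (w' := [(1, .birth d), (0, .cross (!x)), (0, .death)]) [] [(0, .death)] (Move.forkB 0 d x) rfl rfl
    (by cases d <;> rfl) (by cases d <;> rfl)).trans
  ((h.mv (w' := [(1, .birth d), (0, .death)]) [(1, .birth d)] [] (Move.r1D 0 (!x)) rfl rfl (by cases d <;> rfl)
    (by cases d <;> rfl)).trans
  (h.mv [] [] (Move.snakeR 0 d) rfl rfl (by cases d <;> rfl) (by cases d <;> rfl)))

theorem loop_same (h : IsConway nab) (d : Bool) : Zero nab [d] [d] [(1, .birth d), (1, .death)] := by
  have sk := Sk.mid (s := [d]) (t := [d]) ((h.skV d).frame [] [!d]) (a := [(1, .birth d)]) (b := [(1, .death)])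
    (by cases d <;> rfl) (by cases d <;> rfl)
  intro L R u v hu hv
  have e := sk L R u v hu hv
  have e1 := kinkL h d false L R u v hu hv
  have e2 := kinkL h d true L R u v hu hv
  simp only [List.length_nil, sh_zero, List.cons_append, List.nil_append] at e
  rw [e1, e2] at e
  have e3 : X * nab (u ++ sh L.length [(1, .birth d), (1, .death)] ++ v) = 0 := by linear_combination -e
  exact (mul_eq_zero.1 e3).resolve_left X_ne_zero

theorem loop (h : IsConway nab) (d e : Bool) : Zero nab [d] [d] [(1, .birth e), (1, .death)] := by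
  by_cases hd : e = d
  · rw [hd]
    exact loop_same h d
  · have hd' : e = !d := by cases d <;> cases e <;> simp_all
    rw [hd']
    refine Zero.of_same ?_ (loop_same h d)
    exact ((loopflip h d).frame [d] []).symm

/-! ### Sum of two tangles with antiparallel vertical strands -/

theorem G1 (h : IsConway nab) (d : Bool) : Zero nab [d, !d] [d, !d] (glue d [] []) := (loop h d d).frame [] [!d]

theorem G2 (h : IsConway nab) (d : Bool) : Same nab [d, !d] [d, !d] (glue d [(0, .cross false)] []) [] :=
  (kinkL h d false).frame [] [!d]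

theorem G3 (h : IsConway nab) (d : Bool) : Same nab [d, !d] [d, !d] (glue d [] [(0, .cross false)]) [] :=
  (kinkR h d false).frame [d] []

theorem G4a (h : IsConway nab) (d : Bool) :
    Same nab [d, !d] [d, !d] [(1, .birth d), (0, .cross true), (2, .cross false), (1, .death)] (U d) :=
  (h.mv (w := [(0, .birth d), (1, .cross false), (2, .cross false), (1, .death)]) [] [(2, .cross false), (1, .death)]
    (Move.forkB 0 d false) rfl rfl (by cases d <;> rfl) (by cases d <;> rfl)).symm.trans
  ((h.mv (w' := [(0, .birth d), (1, .cross false), (1, .cross true), (2, .death)]) [(0, .birth d), (1, .cross false)] []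
    (Move.forkD 1 false) rfl rfl (by cases d <;> rfl) (by cases d <;> rfl)).trans
  ((h.mv (w' := [(0, .birth d), (2, .death)]) [(0, .birth d)] [(2, .death)] (Move.r2 1 false) rfl rfl (by cases d <;> rfl)
    (by cases d <;> rfl)).trans
  (h.mv [] [] (Move.far 0 0 (.birth d) .death) rfl rfl (by cases d <;> rfl) (by cases d <;> rfl))))

theorem G4 (h : IsConway nab) (d : Bool) :
    Sk nab [d, !d] [d, !d] (glue d [(0, .cross false)] [(0, .cross false)]) (U d) [] :=
  (Sk.mid (s := [d, !d]) (t := [d, !d]) ((h.skV d).frame [] [!d, !d]) (a := [(1, .birth d)]) (b := [(2, .cross false), (1, .death)])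
    (by cases d <;> rfl) (by cases d <;> rfl)).congr (Same.refl _ _ _ _) (G4a h d) (G3 h d)

/-! ### Parallel strands and alternating ends -/

theorem G5 (h : IsConway nab) (d : Bool) : Zero nab [d, d] [d, d] (glue d [] []) := (loop h d d).frame [] [d]

theorem G6 (h : IsConway nab) (d : Bool) : Same nab [d, d] [d, d] (glue d [(0, .cross false)] []) [] :=
  (kinkL h d false).frame [] [d]

theorem G7 (h : IsConway nab) (d : Bool) : Same nab [d, d] [d, d] (glue d [] (U (!d))) [] :=
  (h.mv (w' := [(2, .birth (!d)), (1, .death)]) [] [(2, .birth (!d)), (1, .death)] (Move.snakeL 1 d) rfl rfl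
    (by cases d <;> rfl) (by cases d <;> rfl)).trans
  (h.mv [] [] (Move.snakeR 1 (!d)) rfl rfl (by cases d <;> rfl) (by cases d <;> rfl))

theorem G8 (h : IsConway nab) (d : Bool) :
    Same nab [d, d] [d, d] (glue d [(0, .cross false)] (U (!d))) [(0, .cross false)] :=
  (h.mv (w' := [(1, .birth d), (2, .death), (0, .cross false), (2, .birth (!d)), (1, .death)]) [(1, .birth d)]
    [(2, .birth (!d)), (1, .death)] (Move.far 0 0 (.cross false) .death) rfl rfl (by cases d <;> rfl) (by cases d <;> rfl)).trans
  ((h.mv (w' := [(0, .cross false), (2, .birth (!d)), (1, .death)]) [] [(0, .cross false), (2, .birth (!d)), (1, .death)]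
    (Move.snakeL 1 d) rfl rfl (by cases d <;> rfl) (by cases d <;> rfl)).trans
  (h.mv [(0, .cross false)] [] (Move.snakeR 1 (!d)) rfl rfl (by cases d <;> rfl) (by cases d <;> rfl)))

theorem G9 (h : IsConway nab) (d : Bool) : Zero nab [d, d] [d, d] (glue (!d) [] []) := (loop h d (!d)).frame [] [d]

theorem G10 (h : IsConway nab) (d : Bool) : Same nab [d, d] [d, d] (glue (!d) [] [(0, .cross false)]) [] := by
  have := (kinkR h (!d) false).frame [d] []
  cases d <;> exact this

theorem G11 (h : IsConway nab) (d : Bool) : Same nab [d, d] [d, d] (glue (!d) (U d) []) [] :=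
  (h.mv (w' := [(0, .birth d), (1, .death)]) [] [(0, .birth d), (1, .death)] (Move.snakeR 0 (!d)) rfl rfl
    (by cases d <;> rfl) (by cases d <;> rfl)).trans
  (h.mv [] [] (Move.snakeL 0 d) rfl rfl (by cases d <;> rfl) (by cases d <;> rfl))

theorem G12 (h : IsConway nab) (d : Bool) :
    Same nab [d, d] [d, d] (glue (!d) (U d) [(0, .cross false)]) [(0, .cross false)] :=
  (h.mv (w' := [(0, .birth d), (2, .cross false), (1, .death)]) [] [(0, .birth d), (2, .cross false), (1, .death)]
    (Move.snakeR 0 (!d)) rfl rfl (by cases d <;> rfl) (by cases d <;> rfl)).trans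
  ((h.mv (w' := [(0, .cross false), (0, .birth d), (1, .death)]) [] [(1, .death)]
    (Move.far 0 0 (.birth d) (.cross false)) rfl rfl (by cases d <;> rfl) (by cases d <;> rfl)).trans
  (h.mv [(0, .cross false)] [] (Move.snakeL 0 d) rfl rfl (by cases d <;> rfl) (by cases d <;> rfl)))

/-! ### Two tangles with alternating ends -/

theorem G13 (h : IsConway nab) (d : Bool) : Zero nab [d, !d] [d, !d] (glue (!d) [] []) := (loop h d (!d)).frame [] [!d]

theorem G14 (h : IsConway nab) (d : Bool) : Same nab [d, !d] [d, !d] (glue (!d) [] (U d)) [] :=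
  (h.mv (w' := [(2, .birth d), (1, .death)]) [] [(2, .birth d), (1, .death)] (Move.snakeL 1 (!d)) rfl rfl
    (by cases d <;> rfl) (by cases d <;> rfl)).trans
  (h.mv [] [] (Move.snakeR 1 d) rfl rfl (by cases d <;> rfl) (by cases d <;> rfl))

theorem G15 (h : IsConway nab) (d : Bool) : Same nab [d, !d] [d, !d] (glue (!d) (U d) []) [] :=
  (h.mv (w' := [(0, .birth d), (1, .death)]) [] [(0, .birth d), (1, .death)] (Move.snakeR 0 (!d)) rfl rfl
    (by cases d <;> rfl) (by cases d <;> rfl)).trans
  (h.mv [] [] (Move.snakeL 0 d) rfl rfl (by cases d <;> rfl) (by cases d <;> rfl))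

theorem G16 (h : IsConway nab) (d : Bool) : Same nab [d, !d] [d, !d] (glue (!d) (U d) (U d)) (U d) :=
  (h.mv (w' := [(0, .birth d), (2, .death), (2, .birth d), (1, .death)]) []
    [(0, .birth d), (2, .death), (2, .birth d), (1, .death)] (Move.snakeR 0 (!d)) rfl rfl (by cases d <;> rfl)
    (by cases d <;> rfl)).trans
  ((h.mv (w' := [(0, .birth d), (2, .death)]) [(0, .birth d), (2, .death)] [] (Move.snakeR 1 d) rfl rfl
    (by cases d <;> rfl) (by cases d <;> rfl)).trans
  (h.mv [] [] (Move.far 0 0 (.birth d) .death) rfl rfl (by cases d <;> rfl) (by cases d <;> rfl)))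

/-! ### Rotations -/

theorem R1 (h : IsConway nab) (d : Bool) : Same nab [d, !d] [!d, d] (turn d []) (U (!d)) :=
  h.mv [] [] (Move.far 0 0 (.birth (!d)) .death) rfl rfl (by cases d <;> rfl) (by cases d <;> rfl)

theorem R2x (h : IsConway nab) (d x : Bool) : Same nab [d, !d] [!d, d] (turn d [(0, .cross x)]) [(0, .cross (!x))] :=
  (h.mv (w' := [(1, .birth (!d)), (0, .cross (!x)), (2, .death)]) [] [(2, .death)] (Move.forkB 0 (!d) x) rfl rfl
    (by cases d <;> rfl) (by cases d <;> rfl)).trans
  ((h.mv (w' := [(1, .birth (!d)), (2, .death), (0, .cross (!x))]) [(1, .birth (!d))] []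
    (Move.far 0 0 (.cross (!x)) .death) rfl rfl (by cases d <;> rfl) (by cases d <;> rfl)).trans
  (h.mv [] [(0, .cross (!x))] (Move.snakeL 1 (!d)) rfl rfl (by cases d <;> rfl) (by cases d <;> rfl)))

theorem R3 (h : IsConway nab) (d : Bool) : Same nab [!d, !d] [!d, !d] (turn d (U (!d))) [] :=
  (h.mv (w' := [(1, .birth (!d)), (2, .death)]) [] [(1, .birth (!d)), (2, .death)] (Move.snakeL 0 (!d)) rfl rfl
    (by cases d <;> rfl) (by cases d <;> rfl)).trans
  (h.mv [] [] (Move.snakeL 1 (!d)) rfl rfl (by cases d <;> rfl) (by cases d <;> rfl))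

theorem R4 (h : IsConway nab) (d : Bool) : Same nab [!d, !d] [!d, !d] (turn d [(0, .cross true)]) [(0, .cross false)] :=
  (h.mv (w' := [(1, .birth (!d)), (0, .cross false), (2, .death)]) [] [(2, .death)] (Move.forkB 0 (!d) true) rfl rfl
    (by cases d <;> rfl) (by cases d <;> rfl)).trans
  ((h.mv (w' := [(1, .birth (!d)), (2, .death), (0, .cross false)]) [(1, .birth (!d))] []
    (Move.far 0 0 (.cross false) .death) rfl rfl (by cases d <;> rfl) (by cases d <;> rfl)).trans
  (h.mv [] [(0, .cross false)] (Move.snakeL 1 (!d)) rfl rfl (by cases d <;> rfl) (by cases d <;> rfl)))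

theorem R5 (h : IsConway nab) (d : Bool) : Same nab [!d, d] [!d, d] (turn d []) (U (!d)) :=
  h.mv [] [] (Move.far 0 0 (.birth (!d)) .death) rfl rfl (by cases d <;> rfl) (by cases d <;> rfl)

theorem R6 (h : IsConway nab) (d : Bool) : Same nab [!d, d] [!d, d] (turn d (U d)) [] :=
  (h.mv (w' := [(1, .birth d), (2, .death)]) [] [(1, .birth d), (2, .death)] (Move.snakeL 0 (!d)) rfl rfl
    (by cases d <;> rfl) (by cases d <;> rfl)).trans
  (h.mv [] [] (Move.snakeL 1 d) rfl rfl (by cases d <;> rfl) (by cases d <;> rfl))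

/-- The skein relation for horizontal strands. -/
theorem skH (h : IsConway nab) (d : Bool) : Sk nab [d, !d] [!d, d] [(0, .cross true)] [(0, .cross false)] (U (!d)) :=
  (Sk.mid (s := [d, !d]) (t := [!d, d]) ((h.skV d).frame [!d] [!d]) (a := [(0, .birth (!d))]) (b := [(2, .death)])
    (by cases d <;> rfl) (by cases d <;> rfl)).congr (R2x h d false).symm (R2x h d true) (R1 h d)

/-! ### Sum of two tangles with parallel horizontal strands -/

theorem G17 (h : IsConway nab) (d : Bool) : Same nab [d, !d] [!d, d] (glue (!d) (U (!d)) (U (!d))) (U (!d)) :=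
  (h.mv (w' := [(0, .birth (!d)), (2, .death), (2, .birth (!d)), (1, .death)]) []
    [(0, .birth (!d)), (2, .death), (2, .birth (!d)), (1, .death)] (Move.snakeR 0 (!d)) rfl rfl (by cases d <;> rfl)
    (by cases d <;> rfl)).trans
  ((h.mv (w' := [(0, .birth (!d)), (2, .death)]) [(0, .birth (!d)), (2, .death)] [] (Move.snakeR 1 (!d)) rfl rfl
    (by cases d <;> rfl) (by cases d <;> rfl)).trans
  (h.mv [] [] (Move.far 0 0 (.birth (!d)) .death) rfl rfl (by cases d <;> rfl) (by cases d <;> rfl)))

theorem G18 (h : IsConway nab) (d : Bool) :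
    Same nab [d, !d] [!d, d] (glue (!d) [(0, .cross true)] (U (!d))) [(0, .cross true)] :=
  (h.mv (w' := [(1, .birth (!d)), (2, .death), (0, .cross true), (2, .birth (!d)), (1, .death)]) [(1, .birth (!d))]
    [(2, .birth (!d)), (1, .death)] (Move.far 0 0 (.cross true) .death) rfl rfl (by cases d <;> rfl) (by cases d <;> rfl)).trans
  ((h.mv (w' := [(0, .cross true), (2, .birth (!d)), (1, .death)]) [] [(0, .cross true), (2, .birth (!d)), (1, .death)]
    (Move.snakeL 1 (!d)) rfl rfl (by cases d <;> rfl) (by cases d <;> rfl)).trans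
  (h.mv [(0, .cross true)] [] (Move.snakeR 1 (!d)) rfl rfl (by cases d <;> rfl) (by cases d <;> rfl)))

theorem G19 (h : IsConway nab) (d : Bool) :
    Same nab [d, !d] [!d, d] (glue (!d) (U (!d)) [(0, .cross true)]) [(0, .cross true)] :=
  (h.mv (w' := [(0, .birth (!d)), (2, .cross true), (1, .death)]) [] [(0, .birth (!d)), (2, .cross true), (1, .death)]
    (Move.snakeR 0 (!d)) rfl rfl (by cases d <;> rfl) (by cases d <;> rfl)).trans
  ((h.mv (w' := [(0, .cross true), (0, .birth (!d)), (1, .death)]) [] [(1, .death)]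
    (Move.far 0 0 (.birth (!d)) (.cross true)) rfl rfl (by cases d <;> rfl) (by cases d <;> rfl)).trans
  (h.mv [(0, .cross true)] [] (Move.snakeL 0 (!d)) rfl rfl (by cases d <;> rfl) (by cases d <;> rfl)))

theorem G20a (h : IsConway nab) (d : Bool) :
    Same nab [d, !d] [!d, d] [(1, .birth (!d)), (0, .cross false), (2, .cross true), (1, .death)] (U (!d)) :=
  (h.mv (w := [(0, .birth (!d)), (1, .cross true), (2, .cross true), (1, .death)]) [] [(2, .cross true), (1, .death)]
    (Move.forkB 0 (!d) true) rfl rfl (by cases d <;> rfl) (by cases d <;> rfl)).symm.trans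
  ((h.mv (w' := [(0, .birth (!d)), (1, .cross true), (1, .cross false), (2, .death)]) [(0, .birth (!d)), (1, .cross true)] []
    (Move.forkD 1 true) rfl rfl (by cases d <;> rfl) (by cases d <;> rfl)).trans
  ((h.mv (w' := [(0, .birth (!d)), (2, .death)]) [(0, .birth (!d))] [(2, .death)] (Move.r2 1 true) rfl rfl (by cases d <;> rfl)
    (by cases d <;> rfl)).trans
  (h.mv [] [] (Move.far 0 0 (.birth (!d)) .death) rfl rfl (by cases d <;> rfl) (by cases d <;> rfl))))

theorem G20 (h : IsConway nab) (d : Bool) :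
    Sk nab [d, !d] [!d, d] (glue (!d) [(0, .cross true)] [(0, .cross true)]) (U (!d)) [(0, .cross true)] :=
  (Sk.mid (s := [d, !d]) (t := [!d, d]) ((skH h d).frame [] [d, !d]) (a := [(1, .birth (!d))]) (b := [(2, .cross true), (1, .death)])
    (by cases d <;> rfl) (by cases d <;> rfl)).congr (Same.refl _ _ _ _) (G20a h d) (G19 h d)

end Pool.Agent.Helper2.Arb
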