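import Pool.Agent.Helper2.Arb.Diagram

/-!
# Local relations between diagrams
-/

set_option autoImplicit false

namespace Pool.Agent.Helper2.Arb

open Polynomial

/-- Shift of all positions. -/
def sh (n : ℕ) (w : Word) : Word := w.map fun p => (n + p.1, p.2)

@[simp] theorem sh_nil (n : ℕ) : sh n [] = [] := rfl

@[simp] theorem sh_cons (n : ℕ) (p : ℕ × Kind) (w : Word) : sh n (p :: w) = (n + p.1, p.2) :: sh n w := rfl

@[simp] theorem sh_append (n : ℕ) (u v : Word) : sh n (u ++ v) = sh n u ++ sh n v := List.map_append ..

theorem sh_sh (n m : ℕ) (w : Word) : sh n (sh m w) = sh (n + m) w := by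
  unfold sh
  rw [List.map_map]
  refine List.map_congr_left fun p _ => ?_
  simp [Nat.add_assoc]

theorem sh_zero (w : Word) : sh 0 w = w := by
  unfold sh
  simp

theorem act_left (L s : List Bool) (k : ℕ) (e : Kind) : act (L.length + k) e (L ++ s) = (act k e s).map (L ++ ·) := by
  induction L with
  | nil =>
    rw [List.length_nil, Nat.zero_add, List.nil_append]
    cases act k e s <;> rfl
  | cons a L ih =>
    have : (a :: L).length + k = (L.length + k) + 1 := by
      rw [List.length_cons]
      omega
    rw [this, List.cons_append, act, ih]
    cases act k e s <;> rfl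

theorem Kind.act_right {e : Kind} {s t : List Bool} (R : List Bool) (h : e.act s = some t) : e.act (s ++ R) = some (t ++ R) := by
  cases e with
  | birth d =>
    simp only [Kind.act, Option.some.injEq] at h ⊢
    rw [← h]
    rfl
  | death =>
    match s with
    | [] => simp [Kind.act] at h
    | [a] => simp [Kind.act] at h
    | a :: b :: s =>
      simp only [List.cons_append, Kind.act] at h ⊢
      split_ifs at h ⊢ with hb
      simp only [Option.some.injEq] at h ⊢
      rw [h]
  | cross x =>
    match s with
    | [] => simp [Kind.act] at h
    | [a] => simp [Kind.act] at h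
    | a :: b :: s =>
      simp only [List.cons_append, Kind.act, Option.some.injEq] at h ⊢
      rw [← h]
      rfl

theorem act_right {k : ℕ} {e : Kind} {s t : List Bool} (R : List Bool) (h : act k e s = some t) :
    act k e (s ++ R) = some (t ++ R) := by
  induction k generalizing s t with
  | zero =>
    rw [act] at h ⊢
    exact Kind.act_right R h
  | succ k ih =>
    match s with
    | [] => simp [act] at h
    | a :: s =>
      rw [act] at h
      rw [List.cons_append, act]
      cases h' : act k e s with
      | none => rw [h'] at h; simp at h
      | some t' =>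
        rw [h'] at h
        rw [ih h']
        simp only [Option.map_some, Option.some.injEq] at h ⊢
        rw [← h]
        rfl

theorem run_append (s : List Bool) (u v : Word) : run s (u ++ v) = (run s u).bind fun t => run t v := by
  induction u generalizing s with
  | nil => rfl
  | cons p u ih =>
    obtain ⟨k, e⟩ := p
    rw [List.cons_append, run, run, Option.bind_assoc]
    congr 1
    funext t
    exact ih t

theorem run_append_of {s t r : List Bool} {u v : Word} (h1 : run s u = some t) (h2 : run t v = some r) :
    run s (u ++ v) = some r := by
  rw [run_append, h1]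
  exact h2

theorem run_left (L s : List Bool) (w : Word) : run (L ++ s) (sh L.length w) = (run s w).map (L ++ ·) := by
  induction w generalizing s with
  | nil => rfl
  | cons p w ih =>
    obtain ⟨k, e⟩ := p
    rw [sh_cons, run, run, act_left]
    cases h : act k e s with
    | none => rfl
    | some t => exact ih t

theorem run_right {s t : List Bool} {w : Word} (R : List Bool) (h : run s w = some t) : run (s ++ R) w = some (t ++ R) := by
  induction w generalizing s with
  | nil =>
    simp only [run, Option.some.injEq] at h ⊢
    rw [h]
  | cons p w ih =>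
    obtain ⟨k, e⟩ := p
    rw [run] at h ⊢
    cases h' : act k e s with
    | none => rw [h'] at h; simp at h
    | some t' =>
      rw [h'] at h
      rw [act_right R h']
      exact ih h

theorem run_frame {s t : List Bool} {w : Word} (L R : List Bool) (h : run s w = some t) :
    run (L ++ s ++ R) (sh L.length w) = some (L ++ t ++ R) := by
  rw [List.append_assoc, run_left, run_right R h, Option.map_some, List.append_assoc]

theorem Move.sh {l r : Word} (n : ℕ) (h : Move l r) : Move (sh n l) (sh n r) := by
  cases h with
  | far k m e f =>
    have := Move.far (n + k) m e f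
    simp only [sh_cons, sh_nil]
    rwa [show n + k + e.out + m = n + (k + e.out + m) by omega, show n + k + e.inn + m = n + (k + e.inn + m) by omega] at this
  | snakeL k d => exact Move.snakeL (n + k) d
  | snakeR k d => exact Move.snakeR (n + k) d
  | forkB k d x => exact Move.forkB (n + k) d x
  | forkD k x => exact Move.forkD (n + k) x
  | r1B k d x => exact Move.r1B (n + k) d x
  | r1D k x => exact Move.r1D (n + k) x
  | r2 k x => exact Move.r2 (n + k) x
  | r3 k x y z h => exact Move.r3 (n + k) x y z h

/-- Two words from `s` to `t` which have the same value in every context. -/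
def Same (nab : Word → ℤ[X]) (s t : List Bool) (w w' : Word) : Prop :=
  ∀ (L R : List Bool) (u v : Word), run [] u = some (L ++ s ++ R) → run (L ++ t ++ R) v = some [] →
    nab (u ++ sh L.length w ++ v) = nab (u ++ sh L.length w' ++ v)

/-- A word from `s` to `t` with value `0` in every context. -/
def Zero (nab : Word → ℤ[X]) (s t : List Bool) (w : Word) : Prop :=
  ∀ (L R : List Bool) (u v : Word), run [] u = some (L ++ s ++ R) → run (L ++ t ++ R) v = some [] →
    nab (u ++ sh L.length w ++ v) = 0

/-- The skein relation `w = w' + z w''` in every context. -/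
def Sk (nab : Word → ℤ[X]) (s t : List Bool) (w w' w'' : Word) : Prop :=
  ∀ (L R : List Bool) (u v : Word), run [] u = some (L ++ s ++ R) → run (L ++ t ++ R) v = some [] →
    nab (u ++ sh L.length w ++ v) = nab (u ++ sh L.length w' ++ v) + X * nab (u ++ sh L.length w'' ++ v)

variable {nab : Word → ℤ[X]} {s t s' t' : List Bool} {w w' w'' w₁ : Word}

theorem Same.refl (nab : Word → ℤ[X]) (s t : List Bool) (w : Word) : Same nab s t w w := fun _ _ _ _ _ _ => rfl

theorem Same.symm (h : Same nab s t w w') : Same nab s t w' w := fun L R u v h1 h2 => (h L R u v h1 h2).symm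

theorem Same.trans (h : Same nab s t w w') (h' : Same nab s t w' w'') : Same nab s t w w'' :=
  fun L R u v h1 h2 => (h L R u v h1 h2).trans (h' L R u v h1 h2)

theorem Zero.of_same (h : Same nab s t w w') (h' : Zero nab s t w') : Zero nab s t w :=
  fun L R u v h1 h2 => (h L R u v h1 h2).trans (h' L R u v h1 h2)

theorem closed_frame (hw : run s w = some t) {L R : List Bool} {u v : Word}
    (hu : run [] u = some (L ++ s ++ R)) (hv : run (L ++ t ++ R) v = some []) : Closed (u ++ sh L.length w ++ v) :=
  run_append_of (run_append_of hu (run_frame L R hw)) hv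

/-- One move inside a word. -/
theorem IsConway.same (h : IsConway nab) {l r : Word} (a b : Word) (hm : Move l r) (h1 : run s (a ++ l ++ b) = some t)
    (h2 : run s (a ++ r ++ b) = some t) : Same nab s t (a ++ l ++ b) (a ++ r ++ b) := by
  intro L R u v hu hv
  have c1 := closed_frame h1 hu hv
  have c2 := closed_frame h2 hu hv
  have e1 : ∀ x : Word, u ++ sh L.length (a ++ x ++ b) ++ v = (u ++ sh L.length a) ++ sh L.length x ++ (sh L.length b ++ v) := by
    intro x
    simp only [sh_append, List.append_assoc]
  rw [e1] at c1 c2 ⊢
  rw [e1]
  exact h.move _ _ _ _ (hm.sh L.length) c1 c2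

/-- One move inside a word, with explicit words. -/
theorem IsConway.mv (h : IsConway nab) {l r : Word} (a b : Word) (hm : Move l r) (e1 : w = a ++ l ++ b) (e2 : w' = a ++ r ++ b)
    (h1 : run s w = some t) (h2 : run s w' = some t) : Same nab s t w w' := by
  subst e1 e2
  exact h.same a b hm h1 h2

/-- The same word in a larger context. -/
theorem Same.frame (h : Same nab s t w w') (A B : List Bool) : Same nab (A ++ s ++ B) (A ++ t ++ B) (sh A.length w) (sh A.length w') := by
  intro L R u v hu hv
  have := h (L ++ A) (B ++ R) u v (by rw [hu]; simp) (by rw [← hv]; simp)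
  rw [List.length_append] at this
  rw [sh_sh, sh_sh]
  exact this

theorem Zero.frame (h : Zero nab s t w) (A B : List Bool) : Zero nab (A ++ s ++ B) (A ++ t ++ B) (sh A.length w) := by
  intro L R u v hu hv
  have := h (L ++ A) (B ++ R) u v (by rw [hu]; simp) (by rw [← hv]; simp)
  rw [List.length_append] at this
  rw [sh_sh]
  exact this

theorem Sk.frame (h : Sk nab s t w w' w'') (A B : List Bool) :
    Sk nab (A ++ s ++ B) (A ++ t ++ B) (sh A.length w) (sh A.length w') (sh A.length w'') := by
  intro L R u v hu hv
  have := h (L ++ A) (B ++ R) u v (by rw [hu]; simp) (by rw [← hv]; simp)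
  rw [List.length_append] at this
  rw [sh_sh, sh_sh, sh_sh]
  exact this

/-- The same word between two others. -/
theorem Same.mid (h : Same nab s' t' w w') {a b : Word} (ha : run s a = some s') (hb : run t' b = some t) :
    Same nab s t (a ++ w ++ b) (a ++ w' ++ b) := by
  intro L R u v hu hv
  have := h L R (u ++ sh L.length a) (sh L.length b ++ v) (run_append_of hu (run_frame L R ha))
    (run_append_of (run_frame L R hb) hv)
  simpa only [sh_append, List.append_assoc] using this

theorem Zero.mid (h : Zero nab s' t' w) {a b : Word} (ha : run s a = some s') (hb : run t' b = some t) :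
    Zero nab s t (a ++ w ++ b) := by
  intro L R u v hu hv
  have := h L R (u ++ sh L.length a) (sh L.length b ++ v) (run_append_of hu (run_frame L R ha))
    (run_append_of (run_frame L R hb) hv)
  simpa only [sh_append, List.append_assoc] using this

theorem Sk.mid (h : Sk nab s' t' w w' w'') {a b : Word} (ha : run s a = some s') (hb : run t' b = some t) :
    Sk nab s t (a ++ w ++ b) (a ++ w' ++ b) (a ++ w'' ++ b) := by
  intro L R u v hu hv
  have := h L R (u ++ sh L.length a) (sh L.length b ++ v) (run_append_of hu (run_frame L R ha))
    (run_append_of (run_frame L R hb) hv)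
  simpa only [sh_append, List.append_assoc] using this

theorem Sk.congr (h : Sk nab s t w w' w'') {v v' v'' : Word} (h0 : Same nab s t v w) (h1 : Same nab s t w' v')
    (h2 : Same nab s t w'' v'') : Sk nab s t v v' v'' := by
  intro L R a b hu hv
  rw [h0 L R a b hu hv, ← h1 L R a b hu hv, ← h2 L R a b hu hv]
  exact h L R a b hu hv

/-- The skein relation for two parallel vertical strands. -/
theorem IsConway.skV (h : IsConway nab) (d : Bool) : Sk nab [d, d] [d, d] [(0, .cross false)] [(0, .cross true)] [] := by
  intro L R u v hu hv
  have hl : (L ++ [d, d] ++ R)[L.length]? = some d := by simp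
  have hl' : (L ++ [d, d] ++ R)[L.length + 1]? = some d := by simp
  have := h.skein u v _ L.length d hu hl hl' (run_append_of hu hv)
  simp only [sh_cons, sh_nil, Nat.add_zero, List.append_nil] at this ⊢
  rw [← this]
  ring

end Pool.Agent.Helper2.Arb
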