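import Pool.Agent.Helper2.Arb.Pairs

/-!
# Closed systems of pairs

The operations of the two-state recursion, and two systems of pairs that are closed under them: the strong one (`PI`, `AI`), and the weak one, which also
contains the pairs of the trivial tangles.
-/

set_option autoImplicit false

namespace Pool.Agent.Helper2.Arb

open Polynomial

/-- A class `P` of pairs for parallel ends and a class `A` of pairs for alternating ends which are closed under the operations on tangles. -/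
structure Sys (P A : ℚ[X] → ℚ[X] → Prop) : Prop where
  base : P 0 1
  mul : ∀ {a b a' b' : ℚ[X]}, P a b → P a' b' → P (a * a' + X * (b * b')) (a * b' + b * a' + b * b')
  sum : ∀ {a b a' b' : ℚ[X]}, P a b → P a' b' → A (a * b' + b * a' + b * b') (b * b')
  addA : ∀ {a b g d : ℚ[X]}, P a b → A g d → P (b * g + a * d) (b * d)
  amul : ∀ {g d g' d' : ℚ[X]}, A g d → A g' d' → A (g * d' + d * g') (d * d')
  rot : ∀ {g d : ℚ[X]}, A g d → A (X * d) g
  lb : ∀ {a b : ℚ[X]}, P a b → Nn b ∧ Lc b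
  lg : ∀ {g d : ℚ[X]}, A g d → Nn g ∧ Lc g

theorem strong : Sys PI AI where
  base := PI.base
  mul := PI.mul
  sum := PI.sum
  addA := PI.addA
  amul := AI.mul
  rot := AI.rot
  lb h := ⟨h.nb, h.lb⟩
  lg h := ⟨h.ng, h.lg⟩

/-- Non-negative and log-concave. -/
def Q (f : ℚ[X]) : Prop := Nn f ∧ Lc f

theorem Q.zero : Q 0 := ⟨fun n => by simp, by unfold Lc; rw [mul_zero]; exact Le.zero_right 0⟩

theorem Q.one : Q 1 := ⟨nn1, lc1⟩

theorem Q.mul {f g : ℚ[X]} (hf : Q f) (hg : Q g) : Q (f * g) := ⟨hf.1.mul hg.1, Lc.mul hf.1 hg.1 hf.2 hg.2⟩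

theorem Q.X : Q (Polynomial.X : ℚ[X]) := ⟨nnX, lcX⟩

theorem PI.smul {a b c : ℚ[X]} (hc : Q c) (c0 : c ≠ 0) (h : PI a b) : PI (c * a) (c * b) where
  na := hc.1.mul h.na
  nb := hc.1.mul h.nb
  b0 := mul_ne_zero c0 h.b0
  lo := Le.mul_left hc.1 hc.2 h.lo
  hi := by
    have e : rh (c * a) (c * b) = c * rh a b := by
      unfold rh
      ring
    rw [e, mul_left_comm]
    exact Le.mul_left hc.1 hc.2 h.hi

theorem AI.smul {g d c : ℚ[X]} (hc : Q c) (c0 : c ≠ 0) (h : AI g d) : AI (c * g) (c * d) where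
  ng := hc.1.mul h.ng
  nd := hc.1.mul h.nd
  g0 := mul_ne_zero c0 h.g0
  d0 := mul_ne_zero c0 h.d0
  lo := Le.mul_left hc.1 hc.2 h.lo
  hi := by
    rw [mul_left_comm]
    exact Le.mul_left hc.1 hc.2 h.hi

/-- Weak invariant for parallel ends. -/
def WP (a b : ℚ[X]) : Prop := PI a b ∨ (Q a ∧ b = 0)

/-- Weak invariant for alternating ends. -/
def WA (g d : ℚ[X]) : Prop := AI g d ∨ (Q g ∧ d = 0) ∨ (g = 0 ∧ Q d)

theorem WP.scale {a b c : ℚ[X]} (hc : Q c) (h : PI a b) : WP (c * a) (c * b) := by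
  by_cases c0 : c = 0
  · subst c0
    rw [zero_mul, zero_mul]
    exact Or.inr ⟨Q.zero, rfl⟩
  · exact Or.inl (h.smul hc c0)

theorem WA.scale {g d c : ℚ[X]} (hc : Q c) (h : AI g d) : WA (c * g) (c * d) := by
  by_cases c0 : c = 0
  · subst c0
    rw [zero_mul, zero_mul]
    exact Or.inr (Or.inl ⟨Q.zero, rfl⟩)
  · exact Or.inl (h.smul hc c0)

theorem PI.qb {a b : ℚ[X]} (h : PI a b) : Q b := ⟨h.nb, h.lb⟩

theorem AI.qg {g d : ℚ[X]} (h : AI g d) : Q g := ⟨h.ng, h.lg⟩

theorem AI.qd {g d : ℚ[X]} (h : AI g d) : Q d := ⟨h.nd, h.ld⟩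

theorem weak : Sys WP WA where
  base := Or.inl PI.base
  mul := by
    rintro a b a' b' (h | ⟨qa, rfl⟩) (h' | ⟨qa', rfl⟩)
    · exact Or.inl (h.mul h')
    · have := WP.scale qa' h
      rw [mul_comm a' a, mul_comm a' b] at this
      simpa using this
    · have := WP.scale qa h'
      simpa using this
    · exact Or.inr ⟨by simpa using qa.mul qa', by simp⟩
  sum := by
    rintro a b a' b' (h | ⟨qa, rfl⟩) (h' | ⟨qa', rfl⟩)
    · exact Or.inl (h.sum h')
    · exact Or.inr (Or.inl ⟨by simpa using h.qb.mul qa', by simp⟩)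
    · exact Or.inr (Or.inl ⟨by simpa using qa.mul h'.qb, by simp⟩)
    · exact Or.inr (Or.inl ⟨by simpa using Q.zero, by simp⟩)
  addA := by
    rintro a b g d (h | ⟨qa, rfl⟩) (h' | ⟨qg, rfl⟩ | ⟨rfl, qd⟩)
    · exact Or.inl (h.addA h')
    · exact Or.inr ⟨by simpa using h.qb.mul qg, by simp⟩
    · have := WP.scale qd h
      rw [mul_comm d a, mul_comm d b] at this
      simpa using this
    · exact Or.inr ⟨by simpa using qa.mul h'.qd, by simp⟩
    · exact Or.inr ⟨by simpa using Q.zero, by simp⟩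
    · exact Or.inr ⟨by simpa using qa.mul qd, by simp⟩
  amul := by
    rintro g d g' d' (h | ⟨qg, rfl⟩ | ⟨rfl, qd⟩) (h' | ⟨qg', rfl⟩ | ⟨rfl, qd'⟩)
    · exact Or.inl (h.mul h')
    · exact Or.inr (Or.inl ⟨by simpa using h.qd.mul qg', by simp⟩)
    · have := WA.scale qd' h
      rw [mul_comm d' g, mul_comm d' d] at this
      simpa using this
    · exact Or.inr (Or.inl ⟨by simpa using qg.mul h'.qd, by simp⟩)
    · exact Or.inr (Or.inl ⟨by simpa using Q.zero, by simp⟩)
    · exact Or.inr (Or.inl ⟨by simpa using qg.mul qd', by simp⟩)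
    · have := WA.scale qd h'
      simpa using this
    · exact Or.inr (Or.inl ⟨by simpa using qd.mul qg', by simp⟩)
    · exact Or.inr (Or.inr ⟨by simp, by simpa using qd.mul qd'⟩)
  rot := by
    rintro g d (h | ⟨qg, rfl⟩ | ⟨rfl, qd⟩)
    · exact Or.inl h.rot
    · exact Or.inr (Or.inr ⟨by simp, qg⟩)
    · exact Or.inr (Or.inl ⟨Q.X.mul qd, rfl⟩)
  lb := by
    rintro a b (h | ⟨qa, rfl⟩)
    · exact h.qb
    · exact Q.zero
  lg := by
    rintro g d (h | ⟨qg, rfl⟩ | ⟨rfl, qd⟩)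
    · exact h.qg
    · exact qg
    · exact Q.zero

end Pool.Agent.Helper2.Arb
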