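import Pool.Agent.Helper2.Arb.Ident
import Pool.Agent.Helper2.Arb.Sys

/-!
# The two-state recursion for positive algebraic tangles
-/

set_option autoImplicit false

set_option maxHeartbeats 1000000

namespace Pool.Agent.Helper2.Arb

open Polynomial LaurentPolynomial

/-- The value as a Laurent polynomial with rational coefficients. -/
noncomputable def nl (nab : Word → ℤ[X]) (w : Word) : ℚ[T;T⁻¹] := toLaurent ((nab w).map (Int.castRingHom ℚ))

/-- Substitution of `z⁻²` for `τ`. -/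
noncomputable def ev : ℚ[X] →+* ℚ[T;T⁻¹] := Polynomial.eval₂RingHom LaurentPolynomial.C (T (-2))

theorem ev_X : ev X = T (-2) := by
  simp [ev]

theorem nl_congr {nab : Word → ℤ[X]} {w w' : Word} (h : nab w = nab w') : nl nab w = nl nab w' := by
  rw [nl, nl, h]

theorem nl_zero {nab : Word → ℤ[X]} {w : Word} (h : nab w = 0) : nl nab w = 0 := by
  rw [nl, h, Polynomial.map_zero, map_zero]

theorem nl_sk {nab : Word → ℤ[X]} {w w' w'' : Word} (h : nab w = nab w' + X * nab w'') :
    nl nab w = nl nab w' + T 1 * nl nab w'' := by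
  rw [nl, nl, nl, h, Polynomial.map_add, Polynomial.map_mul, Polynomial.map_X, map_add, map_mul, toLaurent_X]

/-- `w = p w₁ + q w₂` in every context, for every Conway function. -/
def Lin (s t : List Bool) (w : Word) (p : ℚ[T;T⁻¹]) (w₁ : Word) (q : ℚ[T;T⁻¹]) (w₂ : Word) : Prop :=
  ∀ (nab : Word → ℤ[X]), IsConway nab → ∀ (L R : List Bool) (u v : Word), run [] u = some (L ++ s ++ R) →
    run (L ++ t ++ R) v = some [] →
    nl nab (u ++ sh L.length w ++ v) = p * nl nab (u ++ sh L.length w₁ ++ v) + q * nl nab (u ++ sh L.length w₂ ++ v)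

theorem run_glue {a b c d e f : Bool} {w w' : Word} (r : run [a, b] w = some [c, d]) (r' : run [!b, e] w' = some [!d, f]) :
    run [a, e] (glue b w w') = some [c, f] := by
  have h1 : run [a, b, !b, e] w = some [c, d, !b, e] := run_right [!b, e] r
  have h2 : run [c, d, !b, e] (sh 2 w') = some [c, d, !d, f] := by
    have := run_left [c, d] [!b, e] w'
    rw [r'] at this
    exact this
  have h3 : run [a, b, !b, e] (w ++ sh 2 w' ++ [(1, Kind.death)]) = some [c, f] := by
    refine run_append_of (run_append_of h1 h2) ?_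
    cases c <;> cases d <;> cases f <;> rfl
  exact h3

theorem run_turn {a b c d : Bool} {w : Word} (r : run [a, b] w = some [c, d]) :
    run [b, !d] (turn a w) = some [!a, c] := by
  have h1 : run [!a, a, b, !d] (sh 1 w) = some [!a, c, d, !d] := by
    have h0 : run [a, b, !d] w = some [c, d, !d] := run_right [!d] r
    have := run_left [!a] [a, b, !d] w
    rw [h0] at this
    exact this
  have h2 : run [!a, a, b, !d] (sh 1 w ++ [(2, Kind.death)]) = some [!a, c] := by
    refine run_append_of h1 ?_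
    cases a <;> cases c <;> cases d <;> rfl
  cases a <;> exact h2

theorem Lin.glue {a b c d e f : Bool} {w w' w₁ w₂ w₁' w₂' : Word} {p q p' q' : ℚ[T;T⁻¹]}
    (h1 : Lin [a, b] [c, d] w p w₁ q w₂) (h2 : Lin [!b, e] [!d, f] w' p' w₁' q' w₂')
    (r1 : run [a, b] w₁ = some [c, d]) (r2 : run [a, b] w₂ = some [c, d]) (r' : run [!b, e] w' = some [!d, f])
    (nab : Word → ℤ[X]) (hn : IsConway nab) (L R : List Bool) (u v : Word) (hu : run [] u = some (L ++ [a, e] ++ R))
    (hv : run (L ++ [c, f] ++ R) v = some []) :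
    nl nab (u ++ sh L.length (Arb.glue b w w') ++ v) =
      p * (p' * nl nab (u ++ sh L.length (Arb.glue b w₁ w₁') ++ v) + q' * nl nab (u ++ sh L.length (Arb.glue b w₁ w₂') ++ v)) +
      q * (p' * nl nab (u ++ sh L.length (Arb.glue b w₂ w₁') ++ v) + q' * nl nab (u ++ sh L.length (Arb.glue b w₂ w₂') ++ v)) := by
  have hb : run (L ++ [a, e] ++ R) (sh L.length [(1, Kind.birth b)]) = some (L ++ [a, b] ++ ((!b) :: e :: R)) := by
    have : run [a, e] [(1, Kind.birth b)] = some [a, b, !b, e] := rfl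
    rw [run_frame L R this]
    simp
  have hd : run (L ++ [c, d] ++ ((!d) :: f :: R)) (sh L.length [(1, Kind.death)]) = some (L ++ [c, f] ++ R) := by
    have : run [c, d, !d, f] [(1, Kind.death)] = some [c, f] := by cases c <;> cases d <;> cases f <;> rfl
    have h := run_frame L R this
    rw [← h]
    simp
  have hv2 : run (L ++ [c, d] ++ [!d, f] ++ R) (sh L.length [(1, Kind.death)] ++ v) = some [] := by
    refine run_append_of ?_ hv
    rw [← hd]
    simp
  have hv1 : run (L ++ [c, d] ++ ((!b) :: e :: R)) (sh (L.length + 2) w' ++ (sh L.length [(1, Kind.death)] ++ v)) = some [] := by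
    refine run_append_of (t := L ++ [c, d] ++ [!d, f] ++ R) ?_ hv2
    have h := run_frame (L ++ [c, d]) R r'
    rw [show (L ++ [c, d]).length = L.length + 2 by simp] at h
    rw [← h]
    simp
  have hu1 : run [] (u ++ sh L.length [(1, Kind.birth b)]) = some (L ++ [a, b] ++ ((!b) :: e :: R)) := run_append_of hu hb
  have key1 := h1 nab hn L ((!b) :: e :: R) _ _ hu1 hv1
  have key2 : ∀ x : Word, run [a, b] x = some [c, d] →
      nl nab (u ++ sh L.length [(1, Kind.birth b)] ++ sh L.length x ++ (sh (L.length + 2) w' ++ (sh L.length [(1, Kind.death)] ++ v))) =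
        p' * nl nab (u ++ sh L.length (Arb.glue b x w₁') ++ v) + q' * nl nab (u ++ sh L.length (Arb.glue b x w₂') ++ v) := by
    intro x rx
    have hu2 : run [] (u ++ sh L.length [(1, Kind.birth b)] ++ sh L.length x) = some (L ++ [c, d] ++ [!b, e] ++ R) := by
      refine run_append_of hu1 ?_
      rw [run_frame L ((!b) :: e :: R) rx]
      simp
    have key := h2 nab hn (L ++ [c, d]) R _ _ hu2 hv2
    rw [show (L ++ [c, d]).length = L.length + 2 by simp] at key
    simp only [sh_append, sh_cons, sh_nil, sh_sh, List.append_assoc, List.cons_append, List.nil_append] at key ⊢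
    exact key
  rw [key2 w₁ r1, key2 w₂ r2] at key1
  rw [← key1]
  congr 1
  simp only [sh_append, sh_cons, sh_nil, sh_sh, List.append_assoc, List.cons_append, List.nil_append]

theorem Lin.turn {a b c d : Bool} {w w₁ w₂ : Word} {p q : ℚ[T;T⁻¹]} (h1 : Lin [a, b] [c, d] w p w₁ q w₂) :
    Lin [b, !d] [!a, c] (Arb.turn a w) p (Arb.turn a w₁) q (Arb.turn a w₂) := by
  intro nab hn L R u v hu hv
  have hb : run (L ++ [b, !d] ++ R) (sh L.length [(0, Kind.birth (!a))]) = some ((L ++ [!a]) ++ [a, b] ++ ((!d) :: R)) := by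
    have : run [b, !d] [(0, Kind.birth (!a))] = some [!a, a, b, !d] := by cases a <;> rfl
    rw [run_frame L R this]
    simp
  have hd : run ((L ++ [!a]) ++ [c, d] ++ ((!d) :: R)) (sh L.length [(2, Kind.death)]) = some (L ++ [!a, c] ++ R) := by
    have : run [!a, c, d, !d] [(2, Kind.death)] = some [!a, c] := by cases a <;> cases c <;> cases d <;> rfl
    rw [← run_frame L R this]
    simp
  have key := h1 nab hn (L ++ [!a]) ((!d) :: R) _ _ (run_append_of hu hb) (run_append_of hd hv)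
  rw [show (L ++ [!a]).length = L.length + 1 by simp] at key
  simp only [sh_append, sh_cons, sh_nil, sh_sh, List.append_assoc, List.cons_append, List.nil_append] at key ⊢
  exact key

variable {P A : ℚ[X] → ℚ[X] → Prop}

/-- Vertical parallel strands. -/
def PVert (P : ℚ[X] → ℚ[X] → Prop) (d : Bool) (w : Word) : Prop := ∃ (m : ℤ) (a b : ℚ[X]), P a b ∧
  Lin [d, d] [d, d] w (T m * ev a) [] (T (m - 1) * ev b) [(0, .cross false)]

/-- Horizontal parallel strands. -/
def PHor (P : ℚ[X] → ℚ[X] → Prop) (d : Bool) (w : Word) : Prop := ∃ (m : ℤ) (a b : ℚ[X]), P a b ∧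
  Lin [d, !d] [!d, d] w (T m * ev a) (U (!d)) (T (m - 1) * ev b) [(0, .cross true)]

/-- Alternating ends. -/
def PAlt (A : ℚ[X] → ℚ[X] → Prop) (d : Bool) (w : Word) : Prop := ∃ (m : ℤ) (g e : ℚ[X]), A g e ∧
  Lin [d, !d] [d, !d] w (T m * ev g) [] (T (m - 1) * ev e) (U d)

theorem T_mul_T (m n k : ℤ) (h : m + n = k) : (T m : ℚ[T;T⁻¹]) * T n = T k := by
  rw [← T_add, h]

theorem sumVV (S : Sys P A) {d : Bool} {w w' : Word} (h : PVert P d w) (h' : PVert P (!d) w') (r' : run [!d, !d] w' = some [!d, !d]) :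
    PAlt A d (glue d w w') := by
  obtain ⟨m, a, b, hp, hl⟩ := h
  obtain ⟨m', a', b', hp', hl'⟩ := h'
  refine ⟨m + m' - 1, _, _, S.sum hp hp', ?_⟩
  intro nab hn L R u v hu hv
  rw [hl.glue hl' (by cases d <;> rfl) (by cases d <;> rfl) r' nab hn L R u v hu hv,
    nl_zero (G1 hn d L R u v hu hv), nl_congr (G3 hn d L R u v hu hv), nl_congr (G2 hn d L R u v hu hv),
    nl_sk (G4 hn d L R u v hu hv)]
  have e1 : (T (m + m' - 1) : ℚ[T;T⁻¹]) = T m * T m' * T (-1) := by rw [← T_add, ← T_add]; congr 1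
  have e2 : (T (m + m' - 1 - 1) : ℚ[T;T⁻¹]) = T m * T m' * T (-1) * T (-1) := by rw [← T_add, ← T_add, ← T_add]; congr 1
  have e3 : (T (m - 1) : ℚ[T;T⁻¹]) = T m * T (-1) := by rw [← T_add]; congr 1
  have e4 : (T (m' - 1) : ℚ[T;T⁻¹]) = T m' * T (-1) := by rw [← T_add]; congr 1
  have e5 : (T 1 : ℚ[T;T⁻¹]) * T (-1) = 1 := by rw [← T_add]; simp
  rw [e1, e2, e3, e4]
  simp only [map_add, map_mul]
  linear_combination (T m * T m' * T (-1) * ev b * ev b' * nl nab (u ++ sh L.length [] ++ v)) * e5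

theorem sumVA (S : Sys P A) {d : Bool} {w w' : Word} (h : PVert P d w) (h' : PAlt A (!d) w') (r' : run [!d, d] w' = some [!d, d]) :
    PVert P d (glue d w w') := by
  obtain ⟨m, a, b, hp, hl⟩ := h
  obtain ⟨m', g, e, hp', hl'⟩ := h'
  refine ⟨m + m' - 1, _, _, S.addA hp hp', ?_⟩
  intro nab hn L R u v hu hv
  have hl'' : Lin [!d, d] [!d, d] w' (T m' * ev g) [] (T (m' - 1) * ev e) (U (!d)) := by cases d <;> exact hl'
  rw [hl.glue hl'' (by cases d <;> rfl) (by cases d <;> rfl) r' nab hn L R u v hu hv,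
    nl_zero (G5 hn d L R u v hu hv), nl_congr (G6 hn d L R u v hu hv), nl_congr (G7 hn d L R u v hu hv),
    nl_congr (G8 hn d L R u v hu hv)]
  have e1 : (T (m + m' - 1) : ℚ[T;T⁻¹]) = T m * T m' * T (-1) := by rw [← T_add, ← T_add]; congr 1
  have e2 : (T (m + m' - 1 - 1) : ℚ[T;T⁻¹]) = T m * T m' * T (-1) * T (-1) := by rw [← T_add, ← T_add, ← T_add]; congr 1
  have e3 : (T (m - 1) : ℚ[T;T⁻¹]) = T m * T (-1) := by rw [← T_add]; congr 1
  have e4 : (T (m' - 1) : ℚ[T;T⁻¹]) = T m' * T (-1) := by rw [← T_add]; congr 1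
  rw [e1, e2, e3, e4]
  simp only [map_add, map_mul]
  ring

theorem sumAV (S : Sys P A) {d : Bool} {w w' : Word} (h : PAlt A d w) (h' : PVert P d w') (r' : run [d, d] w' = some [d, d]) :
    PVert P d (glue (!d) w w') := by
  obtain ⟨m, g, e, hp, hl⟩ := h
  obtain ⟨m', a, b, hp', hl'⟩ := h'
  refine ⟨m + m' - 1, _, _, S.addA hp' hp, ?_⟩
  intro nab hn L R u v hu hv
  have hl'' : Lin [!(!d), d] [!(!d), d] w' (T m' * ev a) [] (T (m' - 1) * ev b) [(0, .cross false)] := by
    cases d <;> exact hl'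
  have r'' : run [!(!d), d] w' = some [!(!d), d] := by cases d <;> exact r'
  rw [hl.glue hl'' (by cases d <;> rfl) (by cases d <;> rfl) r'' nab hn L R u v hu hv,
    nl_zero (G9 hn d L R u v hu hv), nl_congr (G10 hn d L R u v hu hv), nl_congr (G11 hn d L R u v hu hv),
    nl_congr (G12 hn d L R u v hu hv)]
  have e1 : (T (m + m' - 1) : ℚ[T;T⁻¹]) = T m * T m' * T (-1) := by rw [← T_add, ← T_add]; congr 1
  have e2 : (T (m + m' - 1 - 1) : ℚ[T;T⁻¹]) = T m * T m' * T (-1) * T (-1) := by rw [← T_add, ← T_add, ← T_add]; congr 1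
  have e3 : (T (m - 1) : ℚ[T;T⁻¹]) = T m * T (-1) := by rw [← T_add]; congr 1
  have e4 : (T (m' - 1) : ℚ[T;T⁻¹]) = T m' * T (-1) := by rw [← T_add]; congr 1
  rw [e1, e2, e3, e4]
  simp only [map_add, map_mul]
  ring

theorem sumAA (S : Sys P A) {d : Bool} {w w' : Word} (h : PAlt A d w) (h' : PAlt A d w') (r' : run [d, !d] w' = some [d, !d]) :
    PAlt A d (glue (!d) w w') := by
  obtain ⟨m, g, e, hp, hl⟩ := h
  obtain ⟨m', g', e', hp', hl'⟩ := h'
  refine ⟨m + m' - 1, _, _, S.amul hp hp', ?_⟩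
  intro nab hn L R u v hu hv
  have hl'' : Lin [!(!d), !d] [!(!d), !d] w' (T m' * ev g') [] (T (m' - 1) * ev e') (U d) := by cases d <;> exact hl'
  have r'' : run [!(!d), !d] w' = some [!(!d), !d] := by cases d <;> exact r'
  rw [hl.glue hl'' (by cases d <;> rfl) (by cases d <;> rfl) r'' nab hn L R u v hu hv,
    nl_zero (G13 hn d L R u v hu hv), nl_congr (G14 hn d L R u v hu hv), nl_congr (G15 hn d L R u v hu hv),
    nl_congr (G16 hn d L R u v hu hv)]
  have e1 : (T (m + m' - 1) : ℚ[T;T⁻¹]) = T m * T m' * T (-1) := by rw [← T_add, ← T_add]; congr 1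
  have e2 : (T (m + m' - 1 - 1) : ℚ[T;T⁻¹]) = T m * T m' * T (-1) * T (-1) := by rw [← T_add, ← T_add, ← T_add]; congr 1
  have e3 : (T (m - 1) : ℚ[T;T⁻¹]) = T m * T (-1) := by rw [← T_add]; congr 1
  have e4 : (T (m' - 1) : ℚ[T;T⁻¹]) = T m' * T (-1) := by rw [← T_add]; congr 1
  rw [e1, e2, e3, e4]
  simp only [map_add, map_mul]
  ring

theorem sumHH (S : Sys P A) {d : Bool} {w w' : Word} (h : PHor P d w) (h' : PHor P d w') (r' : run [d, !d] w' = some [!d, d]) :
    PHor P d (glue (!d) w w') := by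
  obtain ⟨m, a, b, hp, hl⟩ := h
  obtain ⟨m', a', b', hp', hl'⟩ := h'
  refine ⟨m + m', _, _, S.mul hp hp', ?_⟩
  intro nab hn L R u v hu hv
  have hl'' : Lin [!(!d), !d] [!d, d] w' (T m' * ev a') (U (!d)) (T (m' - 1) * ev b') [(0, .cross true)] := by
    cases d <;> exact hl'
  have r'' : run [!(!d), !d] w' = some [!d, d] := by cases d <;> exact r'
  rw [hl.glue hl'' (by cases d <;> rfl) (by cases d <;> rfl) r'' nab hn L R u v hu hv,
    nl_congr (G17 hn d L R u v hu hv), nl_congr (G18 hn d L R u v hu hv), nl_congr (G19 hn d L R u v hu hv),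
    nl_sk (G20 hn d L R u v hu hv)]
  have e1 : (T (m + m') : ℚ[T;T⁻¹]) = T m * T m' := by rw [← T_add]
  have e2 : (T (m + m' - 1) : ℚ[T;T⁻¹]) = T m * T m' * T (-1) := by rw [← T_add, ← T_add]; congr 1
  have e3 : (T (m - 1) : ℚ[T;T⁻¹]) = T m * T (-1) := by rw [← T_add]; congr 1
  have e4 : (T (m' - 1) : ℚ[T;T⁻¹]) = T m' * T (-1) := by rw [← T_add]; congr 1
  have e5 : (T 1 : ℚ[T;T⁻¹]) * T (-1) = 1 := by rw [← T_add]; simp
  have e6 : (T (-2) : ℚ[T;T⁻¹]) = T (-1) * T (-1) := by rw [← T_add]; norm_num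
  rw [e1, e2, e3, e4]
  simp only [map_add, map_mul, ev_X, e6]
  linear_combination (T m * T m' * T (-1) * ev b * ev b' * nl nab (u ++ sh L.length [(0, .cross true)] ++ v)) * e5

theorem rotV {d : Bool} {w : Word} (h : PVert P d w) : PHor P d (turn d w) := by
  obtain ⟨m, a, b, hp, hl⟩ := h
  refine ⟨m, a, b, hp, ?_⟩
  intro nab hn L R u v hu hv
  rw [hl.turn nab hn L R u v hu hv, nl_congr (R1 hn d L R u v hu hv), nl_congr (R2x hn d false L R u v hu hv)]
  rfl

theorem rotH {d : Bool} {w : Word} (h : PHor P d w) : PVert P (!d) (turn d w) := by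
  obtain ⟨m, a, b, hp, hl⟩ := h
  refine ⟨m, a, b, hp, ?_⟩
  intro nab hn L R u v hu hv
  rw [hl.turn nab hn L R u v hu hv, nl_congr (R3 hn d L R u v hu hv), nl_congr (R4 hn d L R u v hu hv)]

theorem rotA (S : Sys P A) {d : Bool} {w : Word} (h : PAlt A d w) : PAlt A (!d) (turn d w) := by
  obtain ⟨m, g, e, hp, hl⟩ := h
  refine ⟨m + 1, X * e, g, S.rot hp, ?_⟩
  intro nab hn L R u v hu hv
  have hu' : run [] u = some (L ++ [!d, d] ++ R) := by cases d <;> exact hu
  have hv' : run (L ++ [!d, d] ++ R) v = some [] := by cases d <;> exact hv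
  rw [hl.turn nab hn L R u v hu hv', nl_congr (R5 hn d L R u v hu' hv'), nl_congr (R6 hn d L R u v hu' hv')]
  have e1 : (T (m + 1) : ℚ[T;T⁻¹]) * T (-2) = T (m - 1) := by rw [← T_add]; congr 1; ring
  have e2 : (T (m + 1 - 1) : ℚ[T;T⁻¹]) = T m := by congr 1; ring
  rw [map_mul, ev_X, ← mul_assoc, e1, e2]
  ring

end Pool.Agent.Helper2.Arb
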