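import Pool.Agent.Helper2.Arb.Seq

/-!
# The invariant of the two-state recursion

A tangle with parallel ends has coordinates `(a, b)`, a tangle with alternating ends `(g, d)`.
-/

set_option autoImplicit false

set_option maxHeartbeats 1000000

namespace Pool.Agent.Helper2.Arb

open Polynomial Finset

/-- The centre `2 a + b` of a pair. -/
noncomputable def rh (a b : ℚ[X]) : ℚ[X] := C 2 * a + b

/-- Parallel ends: `b ≤ a` and `2 a + b ≤ X b`. -/
structure PI (a b : ℚ[X]) : Prop where
  na : Nn a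
  nb : Nn b
  b0 : b ≠ 0
  lo : Le b a
  hi : Le (rh a b) (X * b)

/-- Alternating ends: `d ≤ g ≤ X d`. -/
structure AI (g d : ℚ[X]) : Prop where
  ng : Nn g
  nd : Nn d
  g0 : g ≠ 0
  d0 : d ≠ 0
  lo : Le d g
  hi : Le g (X * d)

theorem ne_add {f g : ℚ[X]} (hf : Nn f) (hg : Nn g) (f0 : f ≠ 0) : f + g ≠ 0 := by
  intro h
  apply f0
  ext n
  have := congrArg (fun p => coeff p n) h
  simp only [coeff_add, coeff_zero] at this
  rw [coeff_zero]
  linarith [hf n, hg n]

theorem ne_add' {f g : ℚ[X]} (hf : Nn f) (hg : Nn g) (g0 : g ≠ 0) : f + g ≠ 0 := by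
  rw [add_comm]
  exact ne_add hg hf g0

theorem Le.half_left {f g : ℚ[X]} (h : Le (C 2 * f) g) : Le f g := by
  intro i j hij
  have := h i j hij
  simp only [coeff_C_mul] at this
  linarith

theorem Le.half_right {f g : ℚ[X]} (h : Le f (C 2 * g)) : Le f g := by
  intro i j hij
  have := h i j hij
  simp only [coeff_C_mul] at this
  linarith

/-- `f ≤ g` follows from `f + g ≤ g`. -/
theorem Le.sub_left {f g : ℚ[X]} (h : Le (f + g) g) : Le f g := by
  intro i j hij
  have := h i j hij
  simp only [coeff_add] at this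
  linarith

theorem Le.two_add {f g : ℚ[X]} (h : Le f g) : Le f (C 2 * g + f) :=
  Le.add_right (Le.smul_right (by norm_num) h) (Le.refl f)

namespace PI

variable {a b : ℚ[X]}

theorem nr (h : PI a b) : Nn (rh a b) := (h.na.smul (by norm_num)).add h.nb

theorem r0 (h : PI a b) : rh a b ≠ 0 := ne_add' (h.na.smul (by norm_num)) h.nb h.b0

theorem br (h : PI a b) : Le b (rh a b) := h.lo.two_add

theorem lb (h : PI a b) : Lc b := Lc.of_left h.nb h.nr h.r0 h.br h.hi

theorem lr (h : PI a b) : Lc (rh a b) := Lc.of_right h.nb h.nr h.b0 h.br h.hi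

theorem nk (h : PI a b) : Nn (a + b) := h.na.add h.nb

theorem bk (h : PI a b) : Le b (a + b) := Le.add_right h.lo (Le.refl b)

theorem kX (h : PI a b) : Le (a + b) (X * b) := by
  apply Le.half_left
  have e : C 2 * (a + b) = rh a b + b := by
    unfold rh
    have : (C 2 : ℚ[X]) = 2 := rfl
    rw [this]
    ring
  rw [e]
  exact Le.add_left h.hi h.lb

theorem lk (h : PI a b) : Lc (a + b) := Lc.of_right h.nb h.nk h.b0 h.bk h.kX

theorem ka (h : PI a b) : Le (a + b) a := Le.add_left (Le.refl a) h.lo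

theorem base : PI 0 1 where
  na := fun n => by simp
  nb := nn1
  b0 := one_ne_zero
  lo := Le.zero_right 1
  hi := by
    have : rh 0 1 = 1 := by simp [rh]
    rw [this]
    exact lc1

/-- Product of two parallel tangles along their direction. -/
theorem mul {a' b' : ℚ[X]} (h : PI a b) (h' : PI a' b') : PI (a * a' + X * (b * b')) (a * b' + b * a' + b * b') := by
  have two : (C 2 : ℚ[X]) = 2 := rfl
  have n2 : Nn (b * b') := h.nb.mul h'.nb
  have hB : C 2 * (a * b' + b * a' + b * b') = rh a b * b' + b * rh a' b' := by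
    unfold rh
    rw [two]
    ring
  have nB : Nn (a * b' + b * a' + b * b') := ((h.na.mul h'.nb).add (h.nb.mul h'.na)).add n2
  -- `B ≤ X b b'`
  have h1 : Le (a * b' + b * a' + b * b') (X * (b * b')) := by
    apply Le.half_left
    rw [hB]
    apply Le.add_left
    · have := Le.mul h'.nb h'.lb h.hi
      rwa [mul_assoc] at this
    · have := Le.mul_left h.nb h.lb h'.hi
      rwa [mul_left_comm] at this
  -- `B ≤ a a'`
  have h2 : Le (a * b' + b * a' + b * b') (a * a') := by
    apply Le.sub_left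
    have e : a * b' + b * a' + b * b' + a * a' = (a + b) * (a' + b') := by ring
    rw [e]
    refine efron h.nk h.na h'.nk h'.na (fun n => ?_) (fun n => ?_) h.lk h'.lk h.ka h'.ka
    · rw [coeff_add]; linarith [h.nb n]
    · rw [coeff_add]; linarith [h'.nb n]
  refine ⟨(h.na.mul h'.na).add (nnX.mul n2), nB, ?_, Le.add_right h2 h1, ?_⟩
  · exact ne_add' ((h.na.mul h'.nb).add (h.nb.mul h'.na)) n2 (mul_ne_zero h.b0 h'.b0)
  · apply Le.half_left
    apply Le.half_right
    have e1 : C 2 * rh (a * a' + X * (b * b')) (a * b' + b * a' + b * b') =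
        rh a b * rh a' b' + (b * b' + C 4 * (X * (b * b'))) := by
      have four : (C 4 : ℚ[X]) = 4 := rfl
      unfold rh
      rw [two, four]
      ring
    have e2 : C 2 * (X * (a * b' + b * a' + b * b')) = X * b * rh a' b' + rh a b * (X * b') := by
      rw [mul_left_comm, hB]
      ring
    rw [e1, e2]
    have c1 : Le (rh a b * rh a' b') (X * b * rh a' b') := Le.mul h'.nr h'.lr h.hi
    have c2 : Le (rh a b * rh a' b') (rh a b * (X * b')) := Le.mul_left h.nr h.lr h'.hi
    have c3 : Le (b * b') (b * rh a' b') := Le.mul_left h.nb h.lb h'.br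
    have c4 : Le (b * b') (rh a b * b') := Le.mul h'.nb h'.lb h.br
    have lX : ∀ f g : ℚ[X], Le f g → Le (X * f) (X * g) := fun f g hfg => Le.mul_left nnX lcX hfg
    have c5 : Le (X * (b * b')) (X * b * rh a' b') := by
      have := lX _ _ c3
      rwa [← mul_assoc X b (rh a' b')] at this
    have c6 : Le (X * (b * b')) (rh a b * (X * b')) := by
      have := lX _ _ c4
      rwa [mul_left_comm X (rh a b) b'] at this
    have l2 : Lc (b * b') := Lc.mul h.nb h'.nb h.lb h'.lb
    have c7 : Le (b * b') (X * b * rh a' b') :=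
      Le.trans n2 (nnX.mul n2) ((nnX.mul h.nb).mul h'.nr) (mul_ne_zero X_ne_zero (mul_ne_zero h.b0 h'.b0)) l2 c5
    have c8 : Le (b * b') (rh a b * (X * b')) :=
      Le.trans n2 (nnX.mul n2) (h.nr.mul (nnX.mul h'.nb)) (mul_ne_zero X_ne_zero (mul_ne_zero h.b0 h'.b0)) l2 c6
    refine Le.add_left (Le.add_right c1 c2) (Le.add_left (Le.add_right c7 c8) ?_)
    exact Le.smul_left (by norm_num) (Le.add_right c5 c6)

end PI

namespace AI

variable {g d : ℚ[X]}

theorem ld (h : AI g d) : Lc d := Lc.of_left h.nd h.ng h.g0 h.lo h.hi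

theorem lg (h : AI g d) : Lc g := Lc.of_right h.nd h.ng h.d0 h.lo h.hi

/-- Rotation by a quarter turn. -/
theorem rot (h : AI g d) : AI (X * d) g where
  ng := nnX.mul h.nd
  nd := h.ng
  g0 := mul_ne_zero X_ne_zero h.d0
  d0 := h.g0
  lo := h.hi
  hi := Le.mul_left nnX lcX h.lo

/-- Sum of two tangles with alternating ends. -/
theorem mul {g' d' : ℚ[X]} (h : AI g d) (h' : AI g' d') : AI (g * d' + d * g') (d * d') where
  ng := (h.ng.mul h'.nd).add (h.nd.mul h'.ng)
  nd := h.nd.mul h'.nd
  g0 := ne_add (h.ng.mul h'.nd) (h.nd.mul h'.ng) (mul_ne_zero h.g0 h'.d0)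
  d0 := mul_ne_zero h.d0 h'.d0
  lo := Le.add_right (Le.mul h'.nd h'.ld h.lo) (Le.mul_left h.nd h.ld h'.lo)
  hi := by
    apply Le.add_left
    · have := Le.mul h'.nd h'.ld h.hi
      rwa [mul_assoc] at this
    · have := Le.mul_left h.nd h.ld h'.hi
      rwa [mul_left_comm] at this

end AI

/-- Sum of two antiparallel tangles with parallel ends. -/
theorem PI.sum {a b a' b' : ℚ[X]} (h : PI a b) (h' : PI a' b') : AI (a * b' + b * a' + b * b') (b * b') := by
  have two : (C 2 : ℚ[X]) = 2 := rfl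
  have hB : C 2 * (a * b' + b * a' + b * b') = rh a b * b' + b * rh a' b' := by
    unfold rh
    rw [two]
    ring
  have n2 : Nn (b * b') := h.nb.mul h'.nb
  refine ⟨((h.na.mul h'.nb).add (h.nb.mul h'.na)).add n2, n2, ?_, mul_ne_zero h.b0 h'.b0, ?_, ?_⟩
  · exact ne_add' ((h.na.mul h'.nb).add (h.nb.mul h'.na)) n2 (mul_ne_zero h.b0 h'.b0)
  · apply Le.half_right
    rw [hB]
    exact Le.add_right (Le.mul h'.nb h'.lb h.br) (Le.mul_left h.nb h.lb h'.br)
  · apply Le.half_left
    rw [hB]
    apply Le.add_left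
    · have := Le.mul h'.nb h'.lb h.hi
      rwa [mul_assoc] at this
    · have := Le.mul_left h.nb h.lb h'.hi
      rwa [mul_left_comm] at this

/-- Sum of a tangle with parallel ends and one with alternating ends. -/
theorem PI.addA {a b g d : ℚ[X]} (h : PI a b) (h' : AI g d) : PI (b * g + a * d) (b * d) := by
  have two : (C 2 : ℚ[X]) = 2 := rfl
  refine ⟨(h.nb.mul h'.ng).add (h.na.mul h'.nd), h.nb.mul h'.nd, mul_ne_zero h.b0 h'.d0, ?_, ?_⟩
  · exact Le.add_right (Le.mul_left h.nb h.lb h'.lo) (Le.mul h'.nd h'.ld h.lo)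
  · have e : rh (b * g + a * d) (b * d) = C 2 * (b * g) + rh a b * d := by
      unfold rh
      rw [two]
      ring
    rw [e]
    apply Le.add_left
    · apply Le.smul_left (by norm_num)
      have := Le.mul_left h.nb h.lb h'.hi
      rwa [mul_left_comm] at this
    · have := Le.mul h'.nd h'.ld h.hi
      rwa [mul_assoc] at this

end Pool.Agent.Helper2.Arb
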