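import Mathlib

/-!
# Log-concave sequences and the ratio order

`Le f g`: the quotients `g_i / f_i` increase.  `Lc f`: `f` is log-concave without internal zeros.
-/

set_option autoImplicit false

set_option maxHeartbeats 1000000

namespace Pool.Agent.Helper2.Arb

open Polynomial Finset

/-- All coefficients are non-negative. -/
def Nn (f : ℚ[X]) : Prop := ∀ n, 0 ≤ f.coeff n

/-- The ratio order: `f_j g_i ≤ f_i g_j` for `i < j`. -/
def Le (f g : ℚ[X]) : Prop := ∀ i j, i < j → f.coeff j * g.coeff i ≤ f.coeff i * g.coeff j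

/-- Log-concave (without internal zeros, if the coefficients are non-negative). -/
def Lc (f : ℚ[X]) : Prop := Le f (X * f)

theorem Le.refl (f : ℚ[X]) : Le f f := fun i j _ => by rw [mul_comm]

theorem Le.add_left {f g h : ℚ[X]} (h1 : Le f h) (h2 : Le g h) : Le (f + g) h := by
  intro i j hij
  have a := h1 i j hij
  have b := h2 i j hij
  simp only [coeff_add]
  nlinarith

theorem Le.add_right {f g h : ℚ[X]} (h1 : Le f g) (h2 : Le f h) : Le f (g + h) := by
  intro i j hij
  have a := h1 i j hij
  have b := h2 i j hij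
  simp only [coeff_add]
  nlinarith

theorem Le.smul_left {f g : ℚ[X]} {c : ℚ} (hc : 0 ≤ c) (h : Le f g) : Le (C c * f) g := by
  intro i j hij
  have a := mul_le_mul_of_nonneg_left (h i j hij) hc
  simp only [coeff_C_mul]
  linarith

theorem Le.smul_right {f g : ℚ[X]} {c : ℚ} (hc : 0 ≤ c) (h : Le f g) : Le f (C c * g) := by
  intro i j hij
  have a := mul_le_mul_of_nonneg_left (h i j hij) hc
  simp only [coeff_C_mul]
  linarith

theorem Nn.add {f g : ℚ[X]} (hf : Nn f) (hg : Nn g) : Nn (f + g) := fun n => by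
  rw [coeff_add]
  exact add_nonneg (hf n) (hg n)

theorem Nn.mul {f g : ℚ[X]} (hf : Nn f) (hg : Nn g) : Nn (f * g) := fun n => by
  rw [coeff_mul]
  exact sum_nonneg fun p _ => mul_nonneg (hf _) (hg _)

theorem nnX : Nn (X : ℚ[X]) := fun n => by
  rw [coeff_X]
  split_ifs <;> norm_num

theorem nn1 : Nn (1 : ℚ[X]) := fun n => by
  rw [coeff_one]
  split_ifs <;> norm_num

theorem Nn.smul {f : ℚ[X]} {c : ℚ} (hc : 0 ≤ c) (hf : Nn f) : Nn (C c * f) := fun n => by
  rw [coeff_C_mul]
  exact mul_nonneg hc (hf n)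

theorem Le.trans {f g h : ℚ[X]} (hf : Nn f) (hg : Nn g) (hh : Nn h) (g0 : g ≠ 0)
    (h1 : Le f g) (h2 : Le g h) : Le f h := by
  intro i j hij
  have a := h1 i j hij
  have b := h2 i j hij
  have key : f.coeff j = 0 ∨ h.coeff i = 0 ∨ (0 < g.coeff i ∧ 0 < g.coeff j) := by
    obtain ⟨k, hk⟩ : ∃ k, g.coeff k ≠ 0 := by
      by_contra hcon
      push Not at hcon
      exact g0 (Polynomial.ext fun n => by rw [hcon n, coeff_zero])
    have hk' : 0 < g.coeff k := lt_of_le_of_ne (hg k) (Ne.symm hk)
    rcases (hg i).lt_or_eq with gi | gi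
    · rcases (hg j).lt_or_eq with gj | gj
      · exact Or.inr (Or.inr ⟨gi, gj⟩)
      · left
        rw [← gj, mul_zero] at a
        by_contra hne
        exact absurd a (not_le.2 (mul_pos (lt_of_le_of_ne (hf j) (Ne.symm hne)) gi))
    · rcases (hg j).lt_or_eq with gj | gj
      · right; left
        rw [← gi, zero_mul] at b
        by_contra hne
        exact absurd b (not_le.2 (mul_pos gj (lt_of_le_of_ne (hh i) (Ne.symm hne))))
      · have hki : k ≠ i := fun e => by rw [e] at hk'; exact absurd gi (ne_of_lt hk')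
        have hkj : k ≠ j := fun e => by rw [e] at hk'; exact absurd gj (ne_of_lt hk')
        rcases lt_or_gt_of_ne hkj with hlt | hgt
        · left
          have c := h1 k j hlt
          rw [← gj, mul_zero] at c
          by_contra hne
          exact absurd c (not_le.2 (mul_pos (lt_of_le_of_ne (hf j) (Ne.symm hne)) hk'))
        · right; left
          have c := h2 i k (hij.trans hgt)
          rw [← gi, zero_mul] at c
          by_contra hne
          exact absurd c (not_le.2 (mul_pos hk' (lt_of_le_of_ne (hh i) (Ne.symm hne))))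
  rcases key with k1 | k1 | ⟨k1, k2⟩
  · rw [k1, zero_mul]
    exact mul_nonneg (hf i) (hh j)
  · rw [k1, mul_zero]
    exact mul_nonneg (hf i) (hh j)
  · have c : (f.coeff j * g.coeff i) * (g.coeff j * h.coeff i) ≤ (f.coeff i * g.coeff j) * (g.coeff i * h.coeff j) :=
      mul_le_mul a b (mul_nonneg (hg j) (hh i)) (mul_nonneg (hf i) (hg j))
    have d : (g.coeff i * g.coeff j) * (f.coeff j * h.coeff i) ≤ (g.coeff i * g.coeff j) * (f.coeff i * h.coeff j) := by
      nlinarith
    exact le_of_mul_le_mul_left d (mul_pos k1 k2)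

theorem Lc.adj {f : ℚ[X]} (h : Lc f) {p q : ℕ} (hpq : p ≤ q) :
    f.coeff p * f.coeff (q + 1) ≤ f.coeff (p + 1) * f.coeff q := by
  rcases hpq.eq_or_lt with rfl | hlt
  · rw [mul_comm]
  · have a := h (p + 1) (q + 1) (by omega)
    rw [coeff_X_mul, coeff_X_mul] at a
    linarith

theorem Lc.gen {f : ℚ[X]} (h : Lc f) (s : ℕ) {p q : ℕ} (hpq : p ≤ q) :
    f.coeff p * f.coeff (q + s) ≤ f.coeff (p + s) * f.coeff q := by
  induction s generalizing p with
  | zero => exact le_refl _
  | succ s ih =>
    rcases hpq.eq_or_lt with rfl | hlt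
    · rw [mul_comm]
    · have a := h.adj (p := p) (q := q + s) (by omega)
      have b := ih (p := p + 1) (by omega)
      have e1 : p + 1 + s = p + (s + 1) := by omega
      have e2 : q + s + 1 = q + (s + 1) := by omega
      rw [e1] at b
      rw [e2] at a
      linarith

/-- The Toeplitz matrix of `h`. -/
def tp (h : ℚ[X]) (a i : ℕ) : ℚ := if i ≤ a then h.coeff (a - i) else 0

theorem coeff_mul_tp (f h : ℚ[X]) {a N : ℕ} (hN : a < N) :
    (f * h).coeff a = ∑ i ∈ range N, f.coeff i * tp h a i := by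
  rw [coeff_mul, Finset.Nat.sum_antidiagonal_eq_sum_range_succ (fun i j => f.coeff i * h.coeff j)]
  have hsub : range a.succ ⊆ range N := by
    intro x hx
    simp only [mem_range] at *
    omega
  rw [← sum_subset hsub]
  · refine sum_congr rfl fun i hi => ?_
    have : i ≤ a := by simpa [Nat.lt_succ_iff] using hi
    rw [tp, if_pos this]
  · intro i _ hi
    have : ¬ i ≤ a := by simpa [Nat.lt_succ_iff] using hi
    rw [tp, if_neg this, mul_zero]

theorem tp_minor {h : ℚ[X]} (hh : Nn h) (hl : Lc h) {a b i j : ℕ} (hab : a < b) (hij : i < j) :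
    tp h b i * tp h a j ≤ tp h a i * tp h b j := by
  have hn : ∀ x y, 0 ≤ tp h x y := fun x y => by
    unfold tp
    split_ifs
    · exact hh _
    · exact le_refl _
  by_cases hj : j ≤ a
  · have c := hl.gen (j - i) (p := a - j) (q := b - j) (by omega)
    have e1 : b - j + (j - i) = b - i := by omega
    have e2 : a - j + (j - i) = a - i := by omega
    rw [e1, e2] at c
    simp only [tp, if_pos hj, if_pos (show i ≤ a by omega), if_pos (show i ≤ b by omega), if_pos (show j ≤ b by omega)]
    linarith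
  · have : tp h a j = 0 := by rw [tp, if_neg hj]
    rw [this, mul_zero]
    exact mul_nonneg (hn _ _) (hn _ _)

/-- Convolution with a log-concave sequence keeps the ratio order. -/
theorem Le.mul {f g h : ℚ[X]} (hh : Nn h) (hl : Lc h) (hfg : Le f g) : Le (f * h) (g * h) := by
  intro a b hab
  have hb : b < b + 1 := Nat.lt_succ_self b
  have ha : a < b + 1 := by omega
  rw [coeff_mul_tp f h hb, coeff_mul_tp g h ha, coeff_mul_tp f h ha, coeff_mul_tp g h hb, sum_mul_sum, sum_mul_sum]
  set N := b + 1 with hN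
  have key : 0 ≤ ∑ i ∈ range N, ∑ j ∈ range N,
      (f.coeff i * g.coeff j - f.coeff j * g.coeff i) * (tp h a i * tp h b j - tp h b i * tp h a j) := by
    refine sum_nonneg fun i _ => sum_nonneg fun j _ => ?_
    rcases lt_trichotomy i j with hij | rfl | hij
    · exact mul_nonneg (by linarith [hfg i j hij]) (by linarith [tp_minor hh hl hab hij])
    · simp
    · exact mul_nonneg_of_nonpos_of_nonpos (by linarith [hfg j i hij]) (by linarith [tp_minor hh hl hab hij])
  have e1 : ∑ i ∈ range N, ∑ j ∈ range N, f.coeff i * tp h b i * (g.coeff j * tp h a j) =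
      ∑ i ∈ range N, ∑ j ∈ range N, f.coeff j * tp h b j * (g.coeff i * tp h a i) := by
    rw [sum_comm]
  have e2 : ∑ i ∈ range N, ∑ j ∈ range N, f.coeff i * tp h a i * (g.coeff j * tp h b j) =
      ∑ i ∈ range N, ∑ j ∈ range N, f.coeff j * tp h a j * (g.coeff i * tp h b i) := by
    rw [sum_comm]
  have e3 : ∑ i ∈ range N, ∑ j ∈ range N,
      (f.coeff i * g.coeff j - f.coeff j * g.coeff i) * (tp h a i * tp h b j - tp h b i * tp h a j) =
      (∑ i ∈ range N, ∑ j ∈ range N, f.coeff i * tp h a i * (g.coeff j * tp h b j)) -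
      (∑ i ∈ range N, ∑ j ∈ range N, f.coeff i * tp h b i * (g.coeff j * tp h a j)) -
      (∑ i ∈ range N, ∑ j ∈ range N, f.coeff j * tp h b j * (g.coeff i * tp h a i)) +
      (∑ i ∈ range N, ∑ j ∈ range N, f.coeff j * tp h a j * (g.coeff i * tp h b i)) := by
    rw [← sum_sub_distrib, ← sum_sub_distrib, ← sum_add_distrib]
    refine sum_congr rfl fun i _ => ?_
    rw [← sum_sub_distrib, ← sum_sub_distrib, ← sum_add_distrib]
    refine sum_congr rfl fun j _ => ?_
    ring
  rw [e3, ← e1, ← e2] at key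
  linarith

theorem Le.mul_left {f g h : ℚ[X]} (hh : Nn h) (hl : Lc h) (hfg : Le f g) : Le (h * f) (h * g) := by
  rw [mul_comm h f, mul_comm h g]
  exact Le.mul hh hl hfg

theorem lc1 : Lc (1 : ℚ[X]) := by
  intro i j hij
  rw [mul_one]
  rcases Nat.eq_zero_or_pos i with rfl | hi
  · rw [coeff_X_zero, mul_zero]
    exact mul_nonneg (nn1 0) (nnX j)
  · rw [coeff_one, if_neg (show j ≠ 0 by omega), zero_mul]
    exact mul_nonneg (nn1 i) (nnX j)

theorem lcX : Lc (X : ℚ[X]) := by
  have h := lc1
  intro i j hij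
  rcases Nat.eq_zero_or_pos i with rfl | hi
  · have : ((Polynomial.X : ℚ[X]) * Polynomial.X).coeff 0 = 0 := by simp
    rw [this, mul_zero]
    exact mul_nonneg (nnX 0) ((nnX.mul nnX) j)
  · rw [coeff_X, if_neg (show ¬ 1 = j by omega), zero_mul]
    exact mul_nonneg (nnX i) ((nnX.mul nnX) j)

/-- A pair `f ≤ g ≤ X f` is log-concave. -/
theorem Lc.of_left {f g : ℚ[X]} (hf : Nn f) (hg : Nn g) (g0 : g ≠ 0) (h1 : Le f g) (h2 : Le g (X * f)) : Lc f :=
  Le.trans hf hg (nnX.mul hf) g0 h1 h2

theorem Lc.of_right {f g : ℚ[X]} (hf : Nn f) (hg : Nn g) (f0 : f ≠ 0) (h1 : Le f g) (h2 : Le g (X * f)) : Lc g :=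
  Le.trans hg (nnX.mul hf) (nnX.mul hg) (mul_ne_zero X_ne_zero f0) h2 (Le.mul_left nnX lcX h1)

theorem Lc.mul {f g : ℚ[X]} (_hf : Nn f) (hg : Nn g) (lf : Lc f) (lg : Lc g) : Lc (f * g) := by
  unfold Lc
  rw [← mul_assoc]
  exact Le.mul hg lg lf

/-! ### Truncations -/

/-- The tail of `f` from degree `t` on. -/
noncomputable def tl (f : ℚ[X]) (t : ℕ) : ℚ[X] := ∑ i ∈ (range (f.natDegree + 1)).filter (t ≤ ·), C (f.coeff i) * X ^ i

theorem coeff_tl (f : ℚ[X]) (t n : ℕ) : (tl f t).coeff n = if t ≤ n then f.coeff n else 0 := by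
  unfold tl
  rw [finsetSum_coeff]
  simp only [coeff_C_mul, coeff_X_pow, mul_ite, mul_one, mul_zero]
  by_cases ht : t ≤ n
  · rw [if_pos ht]
    by_cases hn : n < f.natDegree + 1
    · rw [sum_eq_single n]
      · simp
      · intro b _ hb
        rw [if_neg (Ne.symm hb)]
      · intro hcon
        exact absurd (mem_filter.2 ⟨mem_range.2 hn, ht⟩) hcon
    · rw [coeff_eq_zero_of_natDegree_lt (by omega)]
      refine sum_eq_zero fun i hi => ?_
      have := (mem_range.1 (mem_filter.1 hi).1)
      rw [if_neg (show ¬ n = i by omega)]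
  · rw [if_neg ht]
    refine sum_eq_zero fun i hi => ?_
    have := (mem_filter.1 hi).2
    rw [if_neg (show ¬ n = i by omega)]

theorem nn_tl {f : ℚ[X]} (hf : Nn f) (t : ℕ) : Nn (tl f t) := fun n => by
  rw [coeff_tl]
  split_ifs
  · exact hf n
  · exact le_refl _

theorem lc_tl {f : ℚ[X]} (hf : Nn f) (lf : Lc f) (t : ℕ) : Lc (tl f t) := by
  intro i j hij
  have hX : ∀ n, 0 ≤ (X * tl f t).coeff n := nnX.mul (nn_tl hf t)
  rcases Nat.eq_zero_or_pos i with rfl | hi
  · have : (X * tl f t).coeff 0 = 0 := by simp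
    rw [this, mul_zero]
    exact mul_nonneg (nn_tl hf t 0) (hX j)
  · obtain ⟨i, rfl⟩ := Nat.exists_eq_succ_of_ne_zero hi.ne'
    obtain ⟨j, rfl⟩ := Nat.exists_eq_succ_of_ne_zero (show j ≠ 0 by omega)
    rw [Nat.succ_eq_add_one, Nat.succ_eq_add_one, coeff_X_mul, coeff_X_mul, coeff_tl, coeff_tl, coeff_tl, coeff_tl]
    by_cases ht : t ≤ i
    · rw [if_pos ht, if_pos (show t ≤ i + 1 by omega), if_pos (show t ≤ j + 1 by omega), if_pos (show t ≤ j by omega)]
      have := lf.adj (p := i) (q := j) (by omega)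
      linarith
    · rw [if_neg ht, mul_zero]
      split_ifs
      · exact mul_nonneg (hf _) (hf _)
      all_goals simp

theorem le_tl {f : ℚ[X]} (hf : Nn f) (t : ℕ) : Le f (tl f t) := by
  intro i j hij
  rw [coeff_tl, coeff_tl]
  by_cases ht : t ≤ i
  · rw [if_pos ht, if_pos (show t ≤ j by omega), mul_comm]
  · rw [if_neg ht, mul_zero]
    split_ifs
    · exact mul_nonneg (hf _) (hf _)
    · simp

theorem Le.zero_right (f : ℚ[X]) : Le f 0 := fun i j _ => by simp

theorem le_tls {f g : ℚ[X]} (hf : Nn f) (hg : Nn g) (lf : Lc f) (lg : Lc g) (t u : ℕ) :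
    Le (f * g) (tl f t * tl g u) := by
  by_cases h0 : tl f t * g = 0
  · rcases mul_eq_zero.1 h0 with h | h
    · rw [h, zero_mul]
      exact Le.zero_right _
    · have : tl g u = 0 := by
        ext n
        rw [coeff_tl, h]
        simp
      rw [this, mul_zero]
      exact Le.zero_right _
  · exact Le.trans (hf.mul hg) ((nn_tl hf t).mul hg) ((nn_tl hf t).mul (nn_tl hg u)) h0
      (Le.mul hg lg (le_tl hf t)) (Le.mul_left (nn_tl hf t) (lc_tl hf lf t) (le_tl hg u))

theorem Le.sum_right {ι : Type*} (s : Finset ι) (f : ℚ[X]) (g : ι → ℚ[X]) (h : ∀ i ∈ s, Le f (g i)) :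
    Le f (∑ i ∈ s, g i) := by
  classical
  induction s using Finset.induction_on with
  | empty => simpa using Le.zero_right f
  | insert a s ha ih =>
    rw [sum_insert ha]
    exact Le.add_right (h a (mem_insert_self a s)) (ih fun i hi => h i (mem_insert_of_mem hi))

/-- If `k ≤ a` in the ratio order and `a ≤ k` coefficientwise, then `a` is a positive combination of tails of `k`. -/
theorem exists_tails {k a : ℚ[X]} (hk : Nn k) (ha : Nn a) (hak : ∀ n, a.coeff n ≤ k.coeff n) (h : Le k a) :
    ∃ (N : ℕ) (c : ℕ → ℚ), (∀ t, 0 ≤ c t) ∧ a = ∑ t ∈ range N, C (c t) * tl k t := by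
  classical
  let x : ℕ → ℚ := fun n => (range (n + 1)).sup' ⟨0, by simp⟩ (fun j => a.coeff j / k.coeff j)
  have xm : ∀ n, x n ≤ x (n + 1) := by
    intro n
    refine sup'_le _ _ fun j hj => le_sup' (fun j => a.coeff j / k.coeff j) ?_
    simp only [mem_range] at *
    omega
  have x0 : ∀ n, 0 ≤ x n := fun n =>
    le_trans (div_nonneg (ha 0) (hk 0)) (le_sup' (fun j => a.coeff j / k.coeff j) (by simp : (0 : ℕ) ∈ range (n + 1)))
  have xk : ∀ n, a.coeff n = x n * k.coeff n := by
    intro n
    rcases (hk n).lt_or_eq with hn | hn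
    · have : x n = a.coeff n / k.coeff n := by
        apply le_antisymm
        · refine sup'_le _ _ fun j hj => ?_
          simp only [mem_range] at hj
          rcases (show j < n ∨ j = n by omega) with hjn | rfl
          · rcases (hk j).lt_or_eq with hj0 | hj0
            · rw [div_le_div_iff₀ hj0 hn]
              have := h j n hjn
              linarith
            · rw [← hj0, div_zero]
              exact div_nonneg (ha n) (hk n)
          · exact le_refl _
        · exact le_sup' (fun j => a.coeff j / k.coeff j) (by simp)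
      rw [this, div_mul_cancel₀ _ hn.ne']
    · have h1 := hak n
      rw [← hn] at h1 ⊢
      rw [mul_zero]
      exact le_antisymm h1 (ha n)
  refine ⟨k.natDegree + 1, fun t => if t = 0 then x 0 else x t - x (t - 1), ?_, ?_⟩
  · intro t
    rcases Nat.eq_zero_or_pos t with rfl | ht
    · simpa using x0 0
    · obtain ⟨t, rfl⟩ := Nat.exists_eq_succ_of_ne_zero ht.ne'
      have := xm t
      simp only [Nat.succ_eq_add_one, Nat.add_eq_zero_iff, one_ne_zero, and_false, if_false, Nat.add_sub_cancel]
      linarith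
  · ext n
    rw [finsetSum_coeff]
    simp only [coeff_C_mul, coeff_tl]
    by_cases hn : n < k.natDegree + 1
    · have e : ∀ m, ∑ t ∈ range (m + 1), (if t = 0 then x 0 else x t - x (t - 1)) = x m := by
        intro m
        induction m with
        | zero => simp
        | succ m ih =>
          rw [sum_range_succ, ih]
          simp
      have hsub : range (n + 1) ⊆ range (k.natDegree + 1) := by
        intro y hy
        simp only [mem_range] at *
        omega
      rw [← sum_subset hsub]
      · rw [xk n, ← e n, sum_mul]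
        refine sum_congr rfl fun t ht => ?_
        simp only [mem_range] at ht
        rw [if_pos (show t ≤ n by omega)]
      · intro t _ ht
        simp only [mem_range] at ht
        rw [if_neg (show ¬ t ≤ n by omega), mul_zero]
    · have hk0 : k.coeff n = 0 := coeff_eq_zero_of_natDegree_lt (by omega)
      rw [xk n, hk0, mul_zero]
      symm
      refine sum_eq_zero fun t _ => ?_
      split_ifs <;> simp

/-- Discrete form of Efron's monotonicity theorem. -/
theorem efron {k a k' a' : ℚ[X]} (hk : Nn k) (ha : Nn a) (hk' : Nn k') (ha' : Nn a')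
    (hak : ∀ n, a.coeff n ≤ k.coeff n) (hak' : ∀ n, a'.coeff n ≤ k'.coeff n) (lk : Lc k) (lk' : Lc k')
    (h : Le k a) (h' : Le k' a') : Le (k * k') (a * a') := by
  obtain ⟨N, c, hc, e⟩ := exists_tails hk ha hak h
  obtain ⟨N', c', hc', e'⟩ := exists_tails hk' ha' hak' h'
  rw [e, e', sum_mul_sum]
  refine Le.sum_right _ _ _ fun i _ => Le.sum_right _ _ _ fun j _ => ?_
  have : C (c i) * tl k i * (C (c' j) * tl k' j) = C (c i) * (C (c' j) * (tl k i * tl k' j)) := by ring
  rw [this]
  exact Le.smul_right (hc i) (Le.smul_right (hc' j) (le_tls hk hk' lk lk' i j))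

end Pool.Agent.Helper2.Arb
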